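import Mathlib

/-! Hadamard's inequality for real matrices, in squared form. -/

set_option autoImplicit false

namespace Pool.Agent.N86

open Matrix

theorem hadamard_fin (m : ℕ) (A : Matrix (Fin m) (Fin m) ℝ) :
    |A.det| ≤ ∏ i, Real.sqrt (∑ j, A i j ^ 2) := by
  classical
  let E := EuclideanSpace ℝ (Fin m)
  haveI : Fact (Module.finrank ℝ E = m) := ⟨by simp [E]⟩
  let b : OrthonormalBasis (Fin m) ℝ E := EuclideanSpace.basisFun (Fin m) ℝ
  let o : Orientation ℝ E (Fin m) := b.toBasis.orientation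
  let v : Fin m → E := fun i => WithLp.toLp 2 (A i)
  have h1 := o.abs_volumeForm_apply_le v
  rw [o.volumeForm_robust' b] at h1
  have h2 : b.toBasis.det v = A.det := by
    rw [Module.Basis.det_apply, ← Matrix.det_transpose A]
    congr 1
  rw [h2] at h1
  refine h1.trans (le_of_eq ?_)
  refine Finset.prod_congr rfl fun i _ => ?_
  rw [EuclideanSpace.norm_eq]
  congr 1
  refine Finset.sum_congr rfl fun j _ => ?_
  simp [v]

theorem hadamard_sq {n : Type*} [Fintype n] [DecidableEq n] (A : Matrix n n ℝ) :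
    A.det ^ 2 ≤ ∏ i, ∑ j, A i j ^ 2 := by
  classical
  let e := Fintype.equivFin n
  have h := hadamard_fin (Fintype.card n) (A.reindex e e)
  rw [Matrix.det_reindex_self] at h
  have h0 : ∀ i : Fin (Fintype.card n), 0 ≤ ∑ j, (A.reindex e e) i j ^ 2 := fun i =>
    Finset.sum_nonneg fun j _ => sq_nonneg _
  have h2 : A.det ^ 2 ≤ (∏ i, Real.sqrt (∑ j, (A.reindex e e) i j ^ 2)) ^ 2 := by
    rw [← sq_abs]
    exact pow_le_pow_left₀ (abs_nonneg _) h 2
  refine h2.trans (le_of_eq ?_)
  rw [← Finset.prod_pow]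
  rw [← Equiv.prod_comp e.symm (fun i => ∑ j, A i j ^ 2)]
  refine Finset.prod_congr rfl fun i _ => ?_
  rw [Real.sq_sqrt (h0 i), ← Equiv.sum_comp e.symm (fun j => A (e.symm i) j ^ 2)]
  rfl

end Pool.Agent.N86
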