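import Mathlib

/-! Definitions: `d`-CP structures, their combination, the universal CP monoid. -/

set_option autoImplicit false

universe u

namespace Pool.Agent.N86.CP

/-- A `d`-CP structure on a monoid `M`: a bijection `Φ : M^d → M` and elements `τ_i` with
`τ_i Φ(m) = m_i`. A CP monoid is a monoid with a `2`-CP structure `(Σ; π₁, π₂)`
(here `π₁ = τ 0`, `π₂ = τ 1`). -/
structure DCP (M : Type u) [Monoid M] (d : ℕ) where
  Φ : (Fin d → M) ≃ M
  τ : Fin d → M
  τ_Φ : ∀ (m : Fin d → M) (i : Fin d), τ i * Φ m = m i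

/-- The `1`-CP structure `(id; 1)`. -/
def DCP.one (M : Type u) [Monoid M] : DCP M 1 where
  Φ := Equiv.funUnique (Fin 1) M
  τ := fun _ => 1
  τ_Φ := by
    intro m i
    rw [one_mul, Subsingleton.elim i default]
    rfl

/-- The combination of an `s`-CP structure `Ψ` with `d_i`-CP structures `F i`: the
`∑ d_i`-CP structure with bijection
`Δ(m_11, …, m_{s d_s}) = Ψ(F_1(m_11, …, m_{1 d_1}), …, F_s(m_{s1}, …, m_{s d_s}))` and distinguished
elements `τ_{ij} ρ_i`, in the lexicographic order of the pairs `(i, j)`. -/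
def DCP.comb {M : Type u} [Monoid M] {s : ℕ} (Ψ : DCP M s) (d : Fin s → ℕ)
    (F : ∀ i, DCP M (d i)) : DCP M (∑ i, d i) where
  Φ := (Equiv.arrowCongr (finSigmaFinEquiv (n := d)).symm (Equiv.refl M)).trans
    ((Equiv.piCurry (fun (i : Fin s) (_ : Fin (d i)) => M)).trans
      ((Equiv.piCongrRight fun i => (F i).Φ).trans Ψ.Φ))
  τ := fun k => (F (finSigmaFinEquiv.symm k).1).τ (finSigmaFinEquiv.symm k).2 *
    Ψ.τ (finSigmaFinEquiv.symm k).1
  τ_Φ := by
    intro m k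
    obtain ⟨⟨i, j⟩, rfl⟩ := (finSigmaFinEquiv (n := d)).surjective k
    rw [Equiv.symm_apply_apply]
    show (F i).τ j * Ψ.τ i * Ψ.Φ (fun i => (F i).Φ fun j => m (finSigmaFinEquiv ⟨i, j⟩)) = _
    rw [mul_assoc, Ψ.τ_Φ, (F i).τ_Φ]

/-- The set `𝕊(M)` of all structures obtained from `(Σ; π₁, π₂)` and `(id; 1)` by repeated
combination. -/
inductive InS {M : Type u} [Monoid M] (C : DCP M 2) : (d : ℕ) → DCP M d → Prop
  | base : InS C 2 C
  | one : InS C 1 (DCP.one M)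
  | comb {s : ℕ} (Ψ : DCP M s) (d : Fin s → ℕ) (F : ∀ i, DCP M (d i)) :
      InS C s Ψ → (∀ i, InS C (d i) (F i)) → InS C (∑ i, d i) (Ψ.comb d F)

/-- The map `ψ_{Φ,τ} : S_d → M`, `ψ(σ) = Φ(τ_{σ⁻¹(1)}, …, τ_{σ⁻¹(d)})`. -/
def DCP.psi {M : Type u} [Monoid M] {d : ℕ} (D : DCP M d) (σ : Equiv.Perm (Fin d)) : M :=
  D.Φ fun i => D.τ (σ⁻¹ i)

/-- A homomorphism of CP monoids is a monoid homomorphism `f` with `f(π_i) = τ_i` and
`f(Σ(a,b)) = Φ(f(a),f(b))`. -/
def IsCPHom {M N : Type u} [Monoid M] [Monoid N] (C : DCP M 2) (D : DCP N 2) (f : M →* N) : Prop :=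
  (∀ i, f (C.τ i) = D.τ i) ∧ ∀ m : Fin 2 → M, f (C.Φ m) = D.Φ fun i => f (m i)

/-- `U` with the CP structure `C` is the universal CP monoid, i.e. an initial object of the category
of CP monoids. -/
def IsUniversal {U : Type u} [Monoid U] (C : DCP U 2) : Prop :=
  ∀ (N : Type u) [Monoid N] (D : DCP N 2), ∃! f : U →* N, IsCPHom C D f

end Pool.Agent.N86.CP
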