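import Pool.Agent.N86.CPDefs

/-! The unit group of the universal CP monoid is generated by permutations of the leaves of trees. -/

set_option autoImplicit false

universe u

namespace Pool.Agent.N86.CP

section General

variable {M : Type u} [Monoid M] {d : ℕ} (D : DCP M d)

theorem DCP.Φ_τ (x : M) : D.Φ (fun i => D.τ i * x) = x := by
  obtain ⟨m, rfl⟩ := D.Φ.surjective x
  congr 1
  funext i
  exact D.τ_Φ m i

theorem DCP.Φ_mul (m : Fin d → M) (c : M) : D.Φ m * c = D.Φ fun i => m i * c := by
  rw [← D.Φ_τ (D.Φ m * c)]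
  congr 1
  funext i
  rw [← mul_assoc, D.τ_Φ]

theorem DCP.ext_τ {x y : M} (h : ∀ i, D.τ i * x = D.τ i * y) : x = y := by
  rw [← D.Φ_τ x, ← D.Φ_τ y]
  congr 1
  funext i
  exact h i

theorem DCP.τ_psi (σ : Equiv.Perm (Fin d)) (i : Fin d) : D.τ i * D.psi σ = D.τ (σ⁻¹ i) :=
  D.τ_Φ _ i

theorem DCP.psi_mul (σ ρ : Equiv.Perm (Fin d)) : D.psi σ * D.psi ρ = D.psi (σ * ρ) := by
  apply D.ext_τ
  intro i
  rw [← mul_assoc, D.τ_psi, D.τ_psi, D.τ_psi, mul_inv_rev]
  rfl

theorem DCP.psi_one : D.psi 1 = 1 := by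
  apply D.ext_τ
  intro i
  rw [D.τ_psi, mul_one]
  rfl

/-- the unit `ψ(σ)` -/
def DCP.psiU (σ : Equiv.Perm (Fin d)) : Mˣ :=
  ⟨D.psi σ, D.psi σ⁻¹, by rw [D.psi_mul, mul_inv_cancel, D.psi_one],
    by rw [D.psi_mul, inv_mul_cancel, D.psi_one]⟩

end General

/-- trees -/
inductive Tr : Type
  | leaf : Tr
  | node (ch : Fin 2 → Tr) : Tr

abbrev Wd := List (Fin 2)

/-- the set of leaves of a tree -/
def Tr.leaves : Tr → Finset Wd
  | .leaf => {[]}
  | .node ch => Finset.univ.biUnion fun i => (ch i).leaves.image (List.cons i)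

lemma mem_leaf {w : Wd} : w ∈ Tr.leaf.leaves ↔ w = [] := by simp [Tr.leaves]

lemma mem_node {ch : Fin 2 → Tr} {w : Wd} :
    w ∈ (Tr.node ch).leaves ↔ ∃ i v, v ∈ (ch i).leaves ∧ w = i :: v := by
  simp only [Tr.leaves, Finset.mem_biUnion, Finset.mem_univ, true_and, Finset.mem_image]
  constructor
  · rintro ⟨i, v, hv, rfl⟩; exact ⟨i, v, hv, rfl⟩
  · rintro ⟨i, v, hv, rfl⟩; exact ⟨i, v, hv, rfl⟩

/-- number of nodes -/
def Tr.size : Tr → ℕ
  | .leaf => 0
  | .node ch => 1 + ∑ i, (ch i).size

/-- removal of a caret -/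
lemma exists_caret : ∀ T : Tr, T ≠ .leaf → ∃ (γ : Wd) (T' : Tr), (∀ i, γ ++ [i] ∈ T.leaves) ∧
    (∀ α ∈ T'.leaves, α = γ ∨ α ∈ T.leaves) ∧ T'.size < T.size := by
  intro T
  induction T with
  | leaf => intro h; exact absurd rfl h
  | node ch ih =>
    intro _
    by_cases hall : ∀ i, ch i = .leaf
    · refine ⟨[], .leaf, fun i => ?_, fun α hα => ?_, ?_⟩
      · rw [mem_node]; exact ⟨i, [], by rw [hall i, mem_leaf], rfl⟩
      · rw [mem_leaf] at hα; exact Or.inl hα
      · simp [Tr.size]
    · push Not at hall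
      obtain ⟨j, hj⟩ := hall
      obtain ⟨γ, T', h1, h2, h3⟩ := ih j hj
      refine ⟨j :: γ, .node (Function.update ch j T'), fun i => ?_, fun α hα => ?_, ?_⟩
      · rw [mem_node]; exact ⟨j, γ ++ [i], h1 i, rfl⟩
      · rw [mem_node] at hα
        obtain ⟨i, v, hv, rfl⟩ := hα
        by_cases hij : i = j
        · subst hij
          rw [Function.update_self] at hv
          rcases h2 v hv with rfl | h
          · exact Or.inl rfl
          · exact Or.inr (mem_node.mpr ⟨i, v, h, rfl⟩)
        · rw [Function.update_of_ne hij] at hv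
          exact Or.inr (mem_node.mpr ⟨i, v, hv, rfl⟩)
      · simp only [Tr.size]
        apply Nat.add_lt_add_left
        apply Finset.sum_lt_sum
        · intro i _
          by_cases hij : i = j
          · subst hij; rw [Function.update_self]; exact h3.le
          · rw [Function.update_of_ne hij]
        · exact ⟨j, Finset.mem_univ _, by rw [Function.update_self]; exact h3⟩

/-! streams -/

abbrev Str := ℕ → Fin 2

/-- prepend a letter -/
def scons (i : Fin 2) (c : Str) : Str := fun n => Nat.casesOn n i c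

/-- prepend a word -/
def cat (w : Wd) (c : Str) : Str := w.foldr scons c

@[simp] lemma cat_nil (c : Str) : cat [] c = c := rfl
@[simp] lemma cat_cons (i : Fin 2) (w : Wd) (c : Str) : cat (i :: w) c = scons i (cat w c) := rfl

lemma scons_inj {i j : Fin 2} {c d : Str} : scons i c = scons j d ↔ i = j ∧ c = d := by
  constructor
  · intro h
    refine ⟨congrFun h 0, ?_⟩
    funext n
    exact congrFun h (n + 1)
  · rintro ⟨rfl, rfl⟩; rfl

lemma scons_eta (c : Str) : scons (c 0) (fun n => c (n + 1)) = c := by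
  funext n
  cases n <;> rfl

/-- `w` is a prefix of `c` -/
def Pre (w : Wd) (c : Str) : Prop := ∃ d, c = cat w d

lemma pre_nil (c : Str) : Pre [] c := ⟨c, rfl⟩

lemma pre_cons {i j : Fin 2} {w : Wd} {c : Str} : Pre (i :: w) (scons j c) ↔ i = j ∧ Pre w c := by
  constructor
  · rintro ⟨d, hd⟩
    rw [cat_cons, scons_inj] at hd
    exact ⟨hd.1.symm, d, hd.2⟩
  · rintro ⟨rfl, d, rfl⟩
    exact ⟨d, rfl⟩

/-- each stream has exactly one prefix in `S` -/
def Part (S : Finset Wd) : Prop := ∀ c : Str, ∃! w, w ∈ S ∧ Pre w c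

lemma part_leaves (T : Tr) : Part T.leaves := by
  induction T with
  | leaf =>
    intro c
    refine ⟨[], ⟨mem_leaf.mpr rfl, pre_nil c⟩, ?_⟩
    rintro w ⟨hw, -⟩
    exact mem_leaf.mp hw
  | node ch ih =>
    intro c
    rw [← scons_eta c]
    obtain ⟨w, ⟨hw1, hw2⟩, hw3⟩ := ih (c 0) (fun n => c (n + 1))
    refine ⟨c 0 :: w, ⟨mem_node.mpr ⟨_, w, hw1, rfl⟩, pre_cons.mpr ⟨rfl, hw2⟩⟩, ?_⟩
    rintro v ⟨hv, hv2⟩
    obtain ⟨i, v', hv', rfl⟩ := mem_node.mp hv
    obtain ⟨rfl, hpre⟩ := pre_cons.mp hv2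
    rw [hw3 v' ⟨hv', hpre⟩]

/-- partitions of the space of streams into cones come from trees -/
lemma exists_tree : ∀ (n : ℕ) (S : Finset Wd), ∑ w ∈ S, w.length ≤ n → Part S →
    ∃ T : Tr, T.leaves = S := by
  intro n
  induction n with
  | zero =>
    intro S hS hP
    refine ⟨.leaf, ?_⟩
    have h0 : ∀ w ∈ S, w = [] := by
      intro w hw
      have := Finset.single_le_sum (f := fun w : Wd => w.length) (fun _ _ => Nat.zero_le _) hw
      exact List.length_eq_zero_iff.mp (by omega)
    obtain ⟨w, ⟨hw, -⟩, -⟩ := hP (fun _ => 0)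
    ext v
    rw [mem_leaf]
    constructor
    · rintro rfl; rw [← h0 w hw]; exact hw
    · exact h0 v
  | succ n ih =>
    intro S hS hP
    by_cases hnil : ([] : Wd) ∈ S
    · refine ⟨.leaf, ?_⟩
      ext v
      rw [mem_leaf]
      constructor
      · rintro rfl; exact hnil
      · intro hv
        obtain ⟨w, -, hw⟩ := hP (cat v fun _ => 0)
        rw [hw v ⟨hv, _, rfl⟩, ← hw [] ⟨hnil, pre_nil _⟩]
    · let Sb : Fin 2 → Finset Wd := fun i => (S.filter fun w => w.head? = some i).image List.tail
      have hSb : ∀ i v, v ∈ Sb i ↔ i :: v ∈ S := by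
        intro i v
        simp only [Sb, Finset.mem_image, Finset.mem_filter]
        constructor
        · rintro ⟨w, ⟨hw, hh⟩, rfl⟩
          cases w with
          | nil => simp at hh
          | cons a w =>
            simp only [List.head?_cons, Option.some.injEq] at hh
            subst hh; exact hw
        · intro h; exact ⟨i :: v, ⟨h, rfl⟩, rfl⟩
      have hPb : ∀ i, Part (Sb i) := by
        intro i c
        obtain ⟨w, ⟨hw1, hw2⟩, hw3⟩ := hP (scons i c)
        cases w with
        | nil => exact absurd hw1 hnil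
        | cons a w =>
          obtain ⟨rfl, hpre⟩ := pre_cons.mp hw2
          refine ⟨w, ⟨(hSb _ _).mpr hw1, hpre⟩, ?_⟩
          rintro v ⟨hv1, hv2⟩
          have := hw3 (a :: v) ⟨(hSb _ _).mp hv1, pre_cons.mpr ⟨rfl, hv2⟩⟩
          exact (List.cons.inj this).2
      have hlen : ∀ i, ∑ w ∈ Sb i, w.length ≤ n := by
        intro i
        have hne : S.Nonempty := by
          obtain ⟨w, ⟨hw, -⟩, -⟩ := hP (fun _ => 0)
          exact ⟨w, hw⟩
        have h1 : ∑ w ∈ Sb i, w.length ≤ ∑ w ∈ S, (w.length - 1) := by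
          have e : ∑ w ∈ Sb i, w.length = ∑ w ∈ (Sb i).image (List.cons i), (w.length - 1) := by
            rw [Finset.sum_image (fun a _ b _ h => (List.cons.inj h).2)]
            simp
          rw [e]
          apply Finset.sum_le_sum_of_subset
          intro w hw
          obtain ⟨v, hv, rfl⟩ := Finset.mem_image.mp hw
          exact (hSb i v).mp hv
        have h2 : ∑ w ∈ S, (w.length - 1) < ∑ w ∈ S, w.length := by
          apply Finset.sum_lt_sum_of_nonempty hne
          intro w hw
          have : w ≠ [] := fun h => hnil (h ▸ hw)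
          have := List.length_pos_iff.mpr this
          omega
        omega
      choose ch hch using fun i => ih (Sb i) (hlen i) (hPb i)
      refine ⟨.node ch, ?_⟩
      ext w
      rw [mem_node]
      constructor
      · rintro ⟨i, v, hv, rfl⟩
        rw [hch i] at hv
        exact (hSb i v).mp hv
      · intro hw
        cases w with
        | nil => exact absurd hw hnil
        | cons a w => exact ⟨a, w, by rw [hch a]; exact (hSb a w).mpr hw, rfl⟩

/-! words in a CP monoid -/

section Words

variable {M : Type u} [Monoid M] (C : DCP M 2)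

/-- the distinguished element of a path -/
def P : Wd → M
  | [] => 1
  | i :: w => P w * C.τ i

lemma P_append (v w : Wd) : P C (v ++ w) = P C w * P C v := by
  induction v with
  | nil => simp [P]
  | cons i v ih => rw [List.cons_append, P, P, ih, mul_assoc]

lemma P_snoc (v : Wd) (i : Fin 2) : P C (v ++ [i]) = C.τ i * P C v := by
  rw [P_append]; simp [P]

lemma ext_leaves (T : Tr) : ∀ x y : M, (∀ α ∈ T.leaves, P C α * x = P C α * y) → x = y := by
  induction T with
  | leaf =>
    intro x y h
    have := h [] (mem_leaf.mpr rfl)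
    simpa [P] using this
  | node ch ih =>
    intro x y h
    apply C.ext_τ
    intro i
    apply ih i
    intro α hα
    have := h (i :: α) (mem_node.mpr ⟨i, α, hα, rfl⟩)
    rwa [P, mul_assoc, mul_assoc] at this

/-- elements given by words on the leaves of a tree -/
def Good (x : M) : Prop := ∃ T : Tr, ∀ α ∈ T.leaves, ∃ w, P C α * x = P C w

lemma good_word (w : Wd) : Good C (P C w) := ⟨.leaf, fun α hα => by
  rw [mem_leaf] at hα; subst hα; exact ⟨w, by simp [P]⟩⟩

lemma good_Φ (m : Fin 2 → M) (h : ∀ i, Good C (m i)) : Good C (C.Φ m) := by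
  choose ch hch using h
  refine ⟨.node ch, fun α hα => ?_⟩
  obtain ⟨i, v, hv, rfl⟩ := mem_node.mp hα
  rw [P, mul_assoc, C.τ_Φ]
  exact hch i v hv

lemma good_τ_mul {x : M} (h : Good C x) (i : Fin 2) : Good C (C.τ i * x) := by
  obtain ⟨T, hT⟩ := h
  cases T with
  | leaf =>
    obtain ⟨w, hw⟩ := hT [] (mem_leaf.mpr rfl)
    rw [P, one_mul] at hw
    rw [hw, ← P_snoc]
    exact good_word C _
  | node ch =>
    refine ⟨ch i, fun α hα => ?_⟩
    obtain ⟨w, hw⟩ := hT (i :: α) (mem_node.mpr ⟨i, α, hα, rfl⟩)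
    rw [P, mul_assoc] at hw
    exact ⟨w, hw⟩

lemma good_word_mul {x : M} (h : Good C x) (w : Wd) : Good C (P C w * x) := by
  induction w generalizing x with
  | nil => simpa [P] using h
  | cons i w ih =>
    rw [P, mul_assoc]
    exact ih (good_τ_mul C h i)

lemma good_of_leaves (T : Tr) : ∀ x : M, (∀ α ∈ T.leaves, Good C (P C α * x)) → Good C x := by
  induction T with
  | leaf =>
    intro x h
    have := h [] (mem_leaf.mpr rfl)
    simpa [P] using this
  | node ch ih =>
    intro x h
    rw [← C.Φ_τ x]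
    apply good_Φ
    intro i
    apply ih i
    intro α hα
    have := h (i :: α) (mem_node.mpr ⟨i, α, hα, rfl⟩)
    rwa [P, mul_assoc] at this

lemma good_mul {x y : M} (hx : Good C x) (hy : Good C y) : Good C (x * y) := by
  obtain ⟨T, hT⟩ := hx
  apply good_of_leaves C T
  intro α hα
  obtain ⟨w, hw⟩ := hT α hα
  rw [← mul_assoc, hw]
  exact good_word_mul C hy w

/-- the submonoid of good elements -/
def GoodSub : Submonoid M where
  carrier := {x | Good C x}
  one_mem' := good_word C []
  mul_mem' := good_mul C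

/-- its CP structure -/
def GoodCP : DCP (GoodSub C) 2 where
  Φ :=
    { toFun := fun m => ⟨C.Φ fun i => (m i).1, good_Φ C _ fun i => (m i).2⟩
      invFun := fun x i => ⟨C.τ i * x.1, good_τ_mul C x.2 i⟩
      left_inv := by
        intro m
        funext i
        exact Subtype.ext (C.τ_Φ _ i)
      right_inv := by
        intro x
        exact Subtype.ext (C.Φ_τ x.1) }
  τ := fun i => ⟨C.τ i, by
    have := good_word C [i]
    have h2 : Good C (C.τ i) := by simpa [P] using this
    exact h2⟩
  τ_Φ := by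
    intro m i
    exact Subtype.ext (C.τ_Φ _ i)

lemma good_all (hC : IsUniversal C) (x : M) : Good C x := by
  obtain ⟨f, ⟨hf1, hf2⟩, -⟩ := hC (GoodSub C) (GoodCP C)
  obtain ⟨g, -, hg⟩ := hC M C
  have h1 : IsCPHom C C (MonoidHom.id M) := ⟨fun _ => rfl, fun _ => rfl⟩
  have h2 : IsCPHom C C ((GoodSub C).subtype.comp f) := by
    refine ⟨fun i => ?_, fun m => ?_⟩
    · simp only [MonoidHom.comp_apply, hf1]; rfl
    · simp only [MonoidHom.comp_apply, hf2]; rfl
  have h3 := (hg _ h1).trans (hg _ h2).symm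
  have h4 := DFunLike.congr_fun h3 x
  simp only [MonoidHom.id_apply, MonoidHom.comp_apply] at h4
  rw [h4]
  exact (f x).2

end Words

/-! the model on streams -/

abbrev US := ULift.{u} Str

/-- the CP structure on the opposite of the monoid of functions on streams -/
def strCP : DCP (Function.End US.{u})ᵐᵒᵖ 2 where
  Φ :=
    { toFun := fun m => MulOpposite.op fun c =>
        (m (c.down 0)).unop ⟨fun n => c.down (n + 1)⟩
      invFun := fun g i => MulOpposite.op fun c => g.unop ⟨scons i c.down⟩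
      left_inv := by
        intro m
        funext i
        apply MulOpposite.unop_injective
        funext c
        rfl
      right_inv := by
        intro g
        apply MulOpposite.unop_injective
        funext c
        change g.unop ⟨scons (c.down 0) (fun n => c.down (n + 1))⟩ = g.unop c
        rw [scons_eta] }
  τ := fun i => MulOpposite.op fun c => ⟨scons i c.down⟩
  τ_Φ := by
    intro m i
    apply MulOpposite.unop_injective
    funext c
    rfl

section Main

variable {U : Type u} [Monoid U] (C : DCP U 2) (hC : IsUniversal C)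

include hC in
/-- the action on streams -/
lemma exists_action : ∃ h : U → US.{u} → US.{u}, (∀ x y c, h (x * y) c = h y (h x c)) ∧
    (∀ c, h 1 c = c) ∧ ∀ w c, h (P C w) c = ⟨cat w c.down⟩ := by
  obtain ⟨f, ⟨hf1, hf2⟩, -⟩ := hC (Function.End US.{u})ᵐᵒᵖ strCP
  have hmul : ∀ x y c, (f (x * y)).unop c = (f y).unop ((f x).unop c) := by
    intro x y c; rw [map_mul]; rfl
  have hone : ∀ c, (f 1).unop c = c := by intro c; rw [map_one]; rfl
  refine ⟨fun x => (f x).unop, hmul, hone, ?_⟩
  intro w
  induction w with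
  | nil => intro c; exact hone c
  | cons i w ih =>
    intro c
    simp only at ih ⊢
    rw [P, hmul, ih, hf1]
    rfl

/-- permutations of the leaves of a tree come from members of `𝕊(U)` -/
lemma exists_DCP (T : Tr) : ∃ (d : ℕ) (D : DCP U d) (l : Fin d → Wd), InS C d D ∧
    Function.Injective l ∧ (∀ w, w ∈ T.leaves ↔ ∃ i, l i = w) ∧ ∀ i, D.τ i = P C (l i) := by
  induction T with
  | leaf =>
    refine ⟨1, DCP.one U, fun _ => [], InS.one, ?_, ?_, fun _ => rfl⟩
    · intro i j _; exact Subsingleton.elim _ _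
    · intro w; rw [mem_leaf]
      exact ⟨fun h => ⟨0, h.symm⟩, fun ⟨_, h⟩ => h.symm⟩
  | node ch ih =>
    choose d D l hD hl hmem hτ using ih
    refine ⟨∑ i, d i, C.comb d D, fun k => (finSigmaFinEquiv.symm k).1 ::
      l (finSigmaFinEquiv.symm k).1 (finSigmaFinEquiv.symm k).2, InS.comb C d D InS.base hD,
      ?_, ?_, ?_⟩
    · intro a b hab
      apply finSigmaFinEquiv.symm.injective
      obtain ⟨h1, h2⟩ := List.cons.inj hab
      generalize finSigmaFinEquiv.symm a = p at *
      generalize finSigmaFinEquiv.symm b = q at *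
      obtain ⟨i, j⟩ := p
      obtain ⟨i', j'⟩ := q
      simp only at h1 h2
      subst h1
      rw [hl i h2]
    · intro w
      rw [mem_node]
      constructor
      · rintro ⟨i, v, hv, rfl⟩
        obtain ⟨j, hj⟩ := (hmem i v).mp hv
        refine ⟨finSigmaFinEquiv ⟨i, j⟩, ?_⟩
        have h3 : ∀ q : (Σ a : Fin 2, Fin (d a)), q = ⟨i, j⟩ → q.1 :: l q.1 q.2 = i :: v := by
          rintro _ rfl
          exact congrArg (List.cons i) hj
        exact h3 _ (Equiv.symm_apply_apply _ _)
      · rintro ⟨k, rfl⟩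
        exact ⟨_, _, (hmem _ _).mpr ⟨_, rfl⟩, rfl⟩
    · intro k
      change (D _).τ _ * C.τ _ = P C (_ :: _)
      rw [P, hτ]

/-- the generating set -/
def gensU : Set Uˣ := {v | ∃ (d : ℕ) (D : DCP U d) (σ : Equiv.Perm (Fin d)), 2 ≤ d ∧ InS C d D ∧
  (v : U) = D.psi σ}

include hC in
theorem unit_mem : ∀ (n : ℕ) (T : Tr), T.size ≤ n → ∀ u : Uˣ,
    (∀ α ∈ T.leaves, ∃ w, P C α * u = P C w) → u ∈ Subgroup.closure (gensU C) := by
  obtain ⟨h, hmul, hone, hP⟩ := exists_action C hC
  -- the words on the leaves form a partition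
  have key : ∀ (T : Tr) (u : Uˣ) (w : Wd → Wd), (∀ α ∈ T.leaves, P C α * u = P C (w α)) →
      Set.InjOn w T.leaves ∧ Part (T.leaves.image w) := by
    intro T u w hw
    have hbij : Function.Bijective (h u) := by
      constructor
      · intro c d hcd
        have := congrArg (h (u⁻¹ : Uˣ)) hcd
        rw [← hmul, ← hmul, Units.mul_inv, hone, hone] at this
        exact this
      · intro c
        exact ⟨h (u⁻¹ : Uˣ) c, by rw [← hmul, Units.inv_mul, hone]⟩
    have hact : ∀ α ∈ T.leaves, ∀ c : Str, h u ⟨cat α c⟩ = ⟨cat (w α) c⟩ := by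
      intro α hα c
      have e1 : h u (h (P C α) ⟨c⟩) = h (P C (w α)) ⟨c⟩ := by rw [← hmul, hw α hα]
      rw [hP, hP] at e1
      exact e1
    have huniq : ∀ α ∈ T.leaves, ∀ β ∈ T.leaves, ∀ c : Str, Pre (w α) c → Pre (w β) c → α = β := by
      rintro α hα β hβ c ⟨d, hd⟩ ⟨e, he⟩
      have h1 : h u ⟨cat α d⟩ = h u ⟨cat β e⟩ := by
        rw [hact α hα, hact β hβ, ← hd, ← he]
      have h2 := congrArg ULift.down (hbij.1 h1)
      simp only at h2
      obtain ⟨v, -, hv⟩ := part_leaves T (cat α d)
      rw [hv α ⟨hα, d, rfl⟩, hv β ⟨hβ, e, h2⟩]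
    refine ⟨?_, ?_⟩
    · intro α hα β hβ hαβ
      exact huniq α hα β hβ (cat (w α) fun _ => 0) ⟨_, rfl⟩ (by rw [hαβ]; exact ⟨_, rfl⟩)
    · intro c
      obtain ⟨c', hc'⟩ := hbij.2 ⟨c⟩
      obtain ⟨α, ⟨hα, d, hd⟩, -⟩ := part_leaves T c'.down
      have h1 : h u c' = ⟨cat (w α) d⟩ := by
        rw [← hact α hα d, ← hd]
      rw [hc'] at h1
      have h2 : c = cat (w α) d := congrArg ULift.down h1
      refine ⟨w α, ⟨Finset.mem_image_of_mem _ hα, d, h2⟩, ?_⟩
      rintro v ⟨hv1, hv2⟩
      obtain ⟨β, hβ, rfl⟩ := Finset.mem_image.mp hv1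
      rw [huniq β hβ α hα c hv2 ⟨d, h2⟩]
  intro n
  induction n with
  | zero =>
    intro T hT u hu
    cases T with
    | node ch => simp [Tr.size] at hT
    | leaf =>
      choose! w hw using hu
      obtain ⟨-, hpart⟩ := key .leaf u w hw
      have h1 : w [] = [] := by
        obtain ⟨T', hT'⟩ := exists_tree _ _ le_rfl hpart
        have himg : (Tr.leaf.leaves).image w = {w []} := by simp [Tr.leaves]
        rw [himg] at hT'
        cases T' with
        | leaf =>
          have : w [] ∈ Tr.leaf.leaves := by rw [hT']; simp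
          exact mem_leaf.mp this
        | node ch =>
          exfalso
          have hex : ∀ i : Fin 2, ∃ v, i :: v ∈ (Tr.node ch).leaves := by
            intro i
            obtain ⟨v, ⟨hv, -⟩, -⟩ := part_leaves (ch i) (fun _ => 0)
            exact ⟨v, mem_node.mpr ⟨i, v, hv, rfl⟩⟩
          obtain ⟨v0, h0⟩ := hex 0
          obtain ⟨v1, h1⟩ := hex 1
          rw [hT', Finset.mem_singleton] at h0 h1
          have := (List.cons.inj (h0.trans h1.symm)).1
          exact absurd this (by decide)
      have h2 := hw [] (mem_leaf.mpr rfl)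
      rw [h1] at h2
      have h3 : u = 1 := by
        apply Units.ext
        simpa [P] using h2
      rw [h3]
      exact Subgroup.one_mem _
  | succ n ih =>
    intro T hT u hu
    by_cases hleaf : T = .leaf
    · exact ih T (by rw [hleaf]; simp [Tr.size]) u hu
    obtain ⟨γ, T', hγ, hT'leaves, hT'size⟩ := exists_caret T hleaf
    choose! w hw using hu
    obtain ⟨hinj, hpart⟩ := key T u w hw
    obtain ⟨R, hR⟩ := exists_tree _ _ le_rfl hpart
    have hγne : γ ++ [(0 : Fin 2)] ≠ γ ++ [1] := by
      intro h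
      have := List.append_cancel_left h
      simp at this
    have hRleaf : R ≠ .leaf := by
      rintro rfl
      have h0 : w (γ ++ [0]) ∈ Tr.leaf.leaves := by
        rw [hR]; exact Finset.mem_image_of_mem _ (hγ 0)
      have h1 : w (γ ++ [1]) ∈ Tr.leaf.leaves := by
        rw [hR]; exact Finset.mem_image_of_mem _ (hγ 1)
      rw [mem_leaf] at h0 h1
      exact hγne (hinj (hγ 0) (hγ 1) (h0.trans h1.symm))
    obtain ⟨δ, -, hδ, -, -⟩ := exists_caret R hRleaf
    obtain ⟨d, D, l, hD, hl, hlmem, hτ⟩ := exists_DCP C R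
    -- indices
    have hidx : ∀ v ∈ R.leaves, ∃ i, l i = v := fun v hv => (hlmem v).mp hv
    have hwγ : ∀ i, w (γ ++ [i]) ∈ R.leaves := fun i => by
      rw [hR]; exact Finset.mem_image_of_mem _ (hγ i)
    obtain ⟨a0, ha0⟩ := hidx _ (hwγ 0)
    obtain ⟨a1, ha1⟩ := hidx _ (hwγ 1)
    obtain ⟨b0, hb0⟩ := hidx _ (hδ 0)
    obtain ⟨b1, hb1⟩ := hidx _ (hδ 1)
    have ha : a0 ≠ a1 := by
      rintro rfl
      exact hγne (hinj (hγ 0) (hγ 1) (ha0.symm.trans ha1))
    have hb : b0 ≠ b1 := by
      rintro rfl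
      have := List.append_cancel_left (hb0.symm.trans hb1)
      simp at this
    let σ : Equiv.Perm (Fin d) := Equiv.swap (Equiv.swap a0 b0 a1) b1 * Equiv.swap a0 b0
    have hσ0 : σ a0 = b0 := by
      simp only [σ, Equiv.Perm.mul_apply, Equiv.swap_apply_left]
      rw [Equiv.swap_apply_of_ne_of_ne _ hb]
      intro h
      apply ha
      have h2 : Equiv.swap a0 b0 a0 = Equiv.swap a0 b0 a1 := by
        rw [Equiv.swap_apply_left]; exact h
      exact (Equiv.swap a0 b0).injective h2
    have hσ1 : σ a1 = b1 := by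
      simp only [σ, Equiv.Perm.mul_apply, Equiv.swap_apply_left]
    have h2d : 2 ≤ d := by
      have h1 := a0.2
      have h2 := a1.2
      by_contra hlt
      apply ha
      apply Fin.ext
      omega
    let g : Uˣ := D.psiU σ⁻¹
    have hg : g ∈ Subgroup.closure (gensU C) :=
      Subgroup.subset_closure ⟨d, D, σ⁻¹, h2d, hD, rfl⟩
    have hPg : ∀ i, P C (l i) * (g : U) = P C (l (σ i)) := by
      intro i
      rw [← hτ, ← hτ]
      have := D.τ_psi σ⁻¹ i
      rw [inv_inv] at this
      exact this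
    have hug : u * g ∈ Subgroup.closure (gensU C) := by
      apply ih T' (by omega)
      intro α hα
      rcases hT'leaves α hα with rfl | hα'
      · refine ⟨δ, ?_⟩
        apply C.ext_τ
        intro i
        rw [← mul_assoc, ← P_snoc, ← P_snoc]
        push_cast
        rw [← mul_assoc, hw _ (hγ i)]
        fin_cases i
        · simp only [Fin.zero_eta]
          rw [← ha0, hPg, hσ0, hb0]
        · simp only [Fin.mk_one]
          rw [← ha1, hPg, hσ1, hb1]
      · obtain ⟨i, hi⟩ := hidx (w α) (by rw [hR]; exact Finset.mem_image_of_mem _ hα')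
        refine ⟨l (σ i), ?_⟩
        push_cast
        rw [← mul_assoc, hw _ hα', ← hi, hPg]
    have := Subgroup.mul_mem _ hug (Subgroup.inv_mem _ hg)
    rwa [mul_inv_cancel_right] at this

include hC in
theorem closure_gensU : Subgroup.closure (gensU C) = ⊤ := by
  rw [eq_top_iff]
  intro u _
  obtain ⟨T, hT⟩ := good_all C hC (u : U)
  exact unit_mem C hC T.size T le_rfl u hT

end Main

end Pool.Agent.N86.CP
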