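import Mathlib

/-! A finitely generated monoid with surjective pairing: the closed terms of a graph model. -/

set_option autoImplicit false

namespace Pool.Agent.N86.Cqp

open Set

abbrev D := Set ℕ

/-- coding of pairs of a finite set and a number -/
def code (E : Finset ℕ) (m : ℕ) : ℕ := Encodable.encode (E, m)

lemma code_inj {E E' : Finset ℕ} {m m' : ℕ} (h : code E m = code E' m') : E = E' ∧ m = m' := by
  have := Encodable.encode_injective h
  exact ⟨congrArg Prod.fst this, congrArg Prod.snd this⟩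

/-- application in the graph model -/
def app (F X : D) : D := {m | ∃ E : Finset ℕ, (E : Set ℕ) ⊆ X ∧ code E m ∈ F}

/-- graph of a function -/
def graph (f : D → D) : D := {c | ∃ (E : Finset ℕ) (m : ℕ), c = code E m ∧ m ∈ f (E : Set ℕ)}

/-- Scott continuity -/
def Cont (f : D → D) : Prop :=
  ∀ (X : D) (m : ℕ), m ∈ f X ↔ ∃ E : Finset ℕ, (E : Set ℕ) ⊆ X ∧ m ∈ f (E : Set ℕ)

lemma mem_graph (f : D → D) (E : Finset ℕ) (m : ℕ) : code E m ∈ graph f ↔ m ∈ f (E : Set ℕ) := by
  constructor
  · rintro ⟨E', m', h, hm⟩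
    obtain ⟨rfl, rfl⟩ := code_inj h
    exact hm
  · intro h; exact ⟨E, m, rfl, h⟩

lemma app_graph {f : D → D} (hf : Cont f) (X : D) : app (graph f) X = f X := by
  ext m
  rw [hf X m]
  simp only [app, mem_graph, Set.mem_ofPred_eq]

lemma Cont.mono {f : D → D} (hf : Cont f) {X Y : D} (h : X ⊆ Y) : f X ⊆ f Y := by
  intro m hm
  obtain ⟨E, hE, hm'⟩ := (hf X m).mp hm
  exact (hf Y m).mpr ⟨E, hE.trans h, hm'⟩

lemma cont_of {f : D → D} (hmono : ∀ X Y : D, X ⊆ Y → f X ⊆ f Y)
    (hfin : ∀ (X : D) (m : ℕ), m ∈ f X → ∃ E : Finset ℕ, (E : Set ℕ) ⊆ X ∧ m ∈ f (E : Set ℕ)) :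
    Cont f := fun X m => ⟨hfin X m, fun ⟨_, hE, hm⟩ => hmono _ _ hE hm⟩

lemma cont_id : Cont (fun X => X) := by
  apply cont_of
  · intro X Y h; exact h
  · intro X m hm
    exact ⟨{m}, by simpa using hm, by simp⟩

lemma cont_const (C : D) : Cont (fun _ => C) := by
  apply cont_of
  · intro X Y h; exact subset_rfl
  · intro X m hm
    exact ⟨∅, by simp, hm⟩

/-- finitely many memberships are witnessed by one finite set -/
lemma Cont.finset {f : D → D} (hf : Cont f) (X : D) (S : Finset ℕ) (h : (S : Set ℕ) ⊆ f X) :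
    ∃ E : Finset ℕ, (E : Set ℕ) ⊆ X ∧ (S : Set ℕ) ⊆ f (E : Set ℕ) := by
  classical
  induction S using Finset.induction_on with
  | empty => exact ⟨∅, by simp, by simp⟩
  | insert a S _ ih =>
    rw [Finset.coe_insert, Set.insert_subset_iff] at h
    obtain ⟨E, hE, hS⟩ := ih h.2
    obtain ⟨E', hE', ha⟩ := (hf X a).mp h.1
    refine ⟨E ∪ E', by simp [hE, hE'], ?_⟩
    rw [Finset.coe_insert, Set.insert_subset_iff]
    exact ⟨hf.mono (by simp) ha, hS.trans (hf.mono (by simp))⟩

lemma cont_app {f g : D → D} (hf : Cont f) (hg : Cont g) : Cont (fun X => app (f X) (g X)) := by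
  classical
  apply cont_of
  · rintro X Y h m ⟨E, hE, hc⟩
    exact ⟨E, hE.trans (hg.mono h), hf.mono h hc⟩
  · rintro X m ⟨E, hE, hc⟩
    obtain ⟨A, hA, hc'⟩ := (hf X _).mp hc
    obtain ⟨B, hB, hE'⟩ := hg.finset X E hE
    refine ⟨A ∪ B, by simp [hA, hB], E, hE'.trans (hg.mono (by simp)), hf.mono (by simp) hc'⟩

lemma cont_graph {F : D → D → D} (hF : ∀ Y, Cont (fun X => F X Y)) :
    Cont (fun X => graph (F X)) := by
  apply cont_of
  · rintro X Y h c ⟨E, m, rfl, hm⟩
    exact ⟨E, m, rfl, (hF _).mono h hm⟩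
  · rintro X c ⟨E, m, rfl, hm⟩
    obtain ⟨A, hA, hm'⟩ := (hF _ X m).mp hm
    exact ⟨A, hA, E, m, rfl, hm'⟩

/-- pairing -/
def pr (X Y : D) : D := {n | ∃ x ∈ X, n = 2 * x} ∪ {n | ∃ y ∈ Y, n = 2 * y + 1}

/-- first projection -/
def fst (Z : D) : D := {x | 2 * x ∈ Z}

/-- second projection -/
def snd (Z : D) : D := {y | 2 * y + 1 ∈ Z}

lemma fst_pr (X Y : D) : fst (pr X Y) = X := by
  ext m
  simp only [fst, pr, Set.mem_ofPred_eq, Set.mem_union]
  constructor
  · rintro (⟨x, hx, h⟩ | ⟨y, _, h⟩)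
    · have : m = x := by omega
      exact this ▸ hx
    · omega
  · intro h; exact Or.inl ⟨m, h, rfl⟩

lemma snd_pr (X Y : D) : snd (pr X Y) = Y := by
  ext m
  simp only [snd, pr, Set.mem_ofPred_eq, Set.mem_union]
  constructor
  · rintro (⟨x, _, h⟩ | ⟨y, hy, h⟩)
    · omega
    · have : m = y := by omega
      exact this ▸ hy
  · intro h; exact Or.inr ⟨m, h, rfl⟩

lemma pr_fst_snd (Z : D) : pr (fst Z) (snd Z) = Z := by
  ext n
  simp only [fst, snd, pr, Set.mem_ofPred_eq, Set.mem_union]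
  constructor
  · rintro (⟨x, hx, rfl⟩ | ⟨y, hy, rfl⟩)
    · exact hx
    · exact hy
  · intro h
    rcases Nat.even_or_odd' n with ⟨k, rfl | rfl⟩
    · exact Or.inl ⟨k, h, rfl⟩
    · exact Or.inr ⟨k, h, rfl⟩

lemma cont_pr {f g : D → D} (hf : Cont f) (hg : Cont g) : Cont (fun X => pr (f X) (g X)) := by
  apply cont_of
  · rintro X Y h n (⟨x, hx, rfl⟩ | ⟨y, hy, rfl⟩)
    · exact Or.inl ⟨x, hf.mono h hx, rfl⟩
    · exact Or.inr ⟨y, hg.mono h hy, rfl⟩
  · rintro X n (⟨x, hx, rfl⟩ | ⟨y, hy, rfl⟩)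
    · obtain ⟨E, hE, hx'⟩ := (hf X x).mp hx
      exact ⟨E, hE, Or.inl ⟨x, hx', rfl⟩⟩
    · obtain ⟨E, hE, hy'⟩ := (hg X y).mp hy
      exact ⟨E, hE, Or.inr ⟨y, hy', rfl⟩⟩

lemma cont_fst : Cont fst := by
  apply cont_of
  · intro X Y h x hx; exact h hx
  · intro X x hx
    refine ⟨{2 * x}, ?_, by simp [fst]⟩
    intro y hy
    rw [Finset.coe_singleton, Set.mem_singleton_iff] at hy
    subst hy; exact hx

lemma cont_snd : Cont snd := by
  apply cont_of
  · intro X Y h x hx; exact h hx
  · intro X x hx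
    refine ⟨{2 * x + 1}, ?_, by simp [snd]⟩
    intro y hy
    rw [Finset.coe_singleton, Set.mem_singleton_iff] at hy
    subst hy; exact hx

/-- the combinators -/
def cK : D := graph fun X => graph fun _ => X
def cS : D := graph fun X => graph fun Y => graph fun Z => app (app X Z) (app Y Z)
def cP : D := graph fun X => graph fun Y => pr X Y
def cF : D := graph fst
def cG : D := graph snd

lemma app_K (X Y : D) : app (app cK X) Y = X := by
  unfold cK
  rw [app_graph (cont_graph fun _ => cont_id), app_graph (cont_const X)]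

lemma app_S (X Y Z : D) : app (app (app cS X) Y) Z = app (app X Z) (app Y Z) := by
  unfold cS
  rw [app_graph, app_graph, app_graph]
  · exact cont_app (cont_app (cont_const X) cont_id) (cont_app (cont_const Y) cont_id)
  · exact cont_graph fun Z => cont_app (cont_const _) (cont_app cont_id (cont_const Z))
  · exact cont_graph fun Y => cont_graph fun Z =>
      cont_app (cont_app cont_id (cont_const Z)) (cont_const _)

lemma app_P (X Y : D) : app (app cP X) Y = pr X Y := by
  unfold cP
  rw [app_graph (cont_graph fun Y => cont_pr cont_id (cont_const Y)),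
    app_graph (cont_pr (cont_const X) cont_id)]

lemma app_F (X : D) : app cF X = fst X := app_graph cont_fst X

lemma app_G (X : D) : app cG X = snd X := app_graph cont_snd X

/-- closed terms -/
inductive D0 : D → Prop
  | k : D0 cK
  | s : D0 cS
  | p : D0 cP
  | f : D0 cF
  | g : D0 cG
  | ap {X Y : D} : D0 X → D0 Y → D0 (app X Y)

/-- The submonoid of the functions `D → D` given by application of closed terms. -/
def M : Submonoid (Function.End D) where
  carrier := {f | ∃ F, D0 F ∧ ∀ X, f X = app F X}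
  one_mem' := ⟨app (app cS cK) cK, D0.ap (D0.ap D0.s D0.k) D0.k, fun X => by
    rw [app_S, app_K]; rfl⟩
  mul_mem' := by
    rintro f g ⟨F, hF, hf⟩ ⟨G, hG, hg⟩
    refine ⟨app (app cS (app cK F)) G, D0.ap (D0.ap D0.s (D0.ap D0.k hF)) hG, fun X => ?_⟩
    rw [app_S, app_K, ← hg, ← hf]; rfl

/-- pairing of functions -/
def prE (f g : Function.End D) : Function.End D := fun X => pr (f X) (g X)

lemma pair_mem {f g : Function.End D} (hf : f ∈ M) (hg : g ∈ M) : prE f g ∈ M := by
  obtain ⟨F, hF, hf⟩ := hf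
  obtain ⟨G, hG, hg⟩ := hg
  refine ⟨app (app cS (app (app cS (app cK cP)) F)) G,
    D0.ap (D0.ap D0.s (D0.ap (D0.ap D0.s (D0.ap D0.k D0.p)) hF)) hG, fun X => ?_⟩
  rw [app_S, app_S, app_K, app_P, ← hf, ← hg]
  rfl

/-- the first projection as an endomorphism -/
def eF : Function.End D := fst

/-- the second projection as an endomorphism -/
def eG : Function.End D := snd

lemma fst_mem : eF ∈ M := ⟨cF, D0.f, fun X => (app_F X).symm⟩

lemma snd_mem : eG ∈ M := ⟨cG, D0.g, fun X => (app_G X).symm⟩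

/-- application as a function on pairs -/
def eApp : Function.End D := fun Z => app (fst Z) (snd Z)

lemma eApp_mem : eApp ∈ M :=
  ⟨app (app cS cF) cG, D0.ap (D0.ap D0.s D0.f) D0.g, fun X => by
    rw [app_S, app_F, app_G]; rfl⟩

/-- `[f, [g, x]] ↦ [f g, x]` -/
def eA : Function.End D := fun Z => pr (app (fst Z) (fst (snd Z))) (snd (snd Z))

lemma eA_mem : eA ∈ M := by
  have h1 : prE eF (eF * eG) ∈ M := pair_mem fst_mem (M.mul_mem fst_mem snd_mem)
  have h2 := pair_mem (M.mul_mem eApp_mem h1) (M.mul_mem snd_mem snd_mem)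
  have h3 : eA = prE (eApp * prE eF (eF * eG)) (eG * eG) := by
    funext Z
    change pr (app (fst Z) (fst (snd Z))) (snd (snd Z)) =
      pr (app (fst (pr (fst Z) (fst (snd Z)))) (snd (pr (fst Z) (fst (snd Z))))) (snd (snd Z))
    rw [fst_pr, snd_pr]
  rw [h3]
  exact h2

/-- `x ↦ [F, x]` -/
def eC (F : D) : Function.End D := fun X => pr F X

lemma eC_mem {F : D} (hF : D0 F) : eC F ∈ M := by
  have h1 : (fun _ => F : Function.End D) ∈ M :=
    ⟨app cK F, D0.ap D0.k hF, fun X => (app_K F X).symm⟩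
  exact pair_mem h1 M.one_mem

/-- the finite generating set -/
def gens : Set (Function.End D) := {eApp, eA, eC cK, eC cS, eC cP, eC cF, eC cG}

lemma eC_closure {F : D} (hF : D0 F) : eC F ∈ Submonoid.closure gens := by
  induction hF with
  | k => exact Submonoid.subset_closure (by simp [gens])
  | s => exact Submonoid.subset_closure (by simp [gens])
  | p => exact Submonoid.subset_closure (by simp [gens])
  | f => exact Submonoid.subset_closure (by simp [gens])
  | g => exact Submonoid.subset_closure (by simp [gens])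
  | @ap X Y _ _ hX hY =>
    have h : eC (app X Y) = eA * eC X * eC Y := by
      funext Z
      change pr (app X Y) Z = pr (app (fst (pr X (pr Y Z))) (fst (snd (pr X (pr Y Z)))))
        (snd (snd (pr X (pr Y Z))))
      simp only [fst_pr, snd_pr]
    rw [h]
    exact Submonoid.mul_mem _ (Submonoid.mul_mem _
      (Submonoid.subset_closure (by simp [gens])) hX) hY

lemma closure_gens : Submonoid.closure gens = M := by
  apply le_antisymm
  · rw [Submonoid.closure_le]
    rintro f hf
    simp only [gens, Set.mem_insert_iff, Set.mem_singleton_iff] at hf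
    rcases hf with rfl | rfl | rfl | rfl | rfl | rfl | rfl
    · exact eApp_mem
    · exact eA_mem
    · exact eC_mem D0.k
    · exact eC_mem D0.s
    · exact eC_mem D0.p
    · exact eC_mem D0.f
    · exact eC_mem D0.g
  · rintro f ⟨F, hF, hf⟩
    have h : f = eApp * eC F := by
      funext X
      change f X = app (fst (pr F X)) (snd (pr F X))
      rw [fst_pr, snd_pr, hf]
    rw [h]
    exact Submonoid.mul_mem _ (Submonoid.subset_closure (by simp [gens])) (eC_closure hF)

lemma fg_M : Monoid.FG M := by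
  rw [Monoid.fg_iff_submonoid_fg, Submonoid.fg_iff]
  refine ⟨gens, closure_gens, ?_⟩
  unfold gens
  exact Set.toFinite _

lemma ne_M : (⟨eF, fst_mem⟩ : M) ≠ ⟨eG, snd_mem⟩ := by
  intro h
  have h1 : fst = snd := congrArg Subtype.val h
  have h2 := congrFun h1 ({0} : D)
  have h3 : (0 : ℕ) ∈ fst ({0} : D) := by simp [fst]
  rw [h2] at h3
  simp [snd] at h3

end Pool.Agent.N86.Cqp
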