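import Pool.Agent.N86.LampDefs

/-! Restricted wreath products `Y ≀ ℤ` with `Y` nonabelian do not act faithfully by length
preserving permutations of words over a finite alphabet. -/

set_option autoImplicit false

namespace Pool.Agent.N86.Lam

open Function

variable {Y : Type} [Group Y]

/-- the lamp element `y` at position `n` -/
def lmp (n : ℤ) (y : Y) : Lamp Y :=
  ⟨⟨Pi.mulSingle (Multiplicative.ofAdd n) y, 1⟩, by
    change (mulSupport _).Finite
    exact Set.Finite.subset (Set.finite_singleton _) Pi.mulSupport_mulSingle_subset⟩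

/-- the shift -/
def shf (n : ℤ) : Lamp Y :=
  ⟨RegularWreathProduct.inl (Multiplicative.ofAdd n), by
    change (mulSupport _).Finite
    simp⟩

lemma shf_pow (n : ℕ) : (shf (n : ℤ) : Lamp Y) = shf 1 ^ n := by
  apply Subtype.ext
  simp only [shf, SubmonoidClass.coe_pow]
  rw [← map_pow]
  congr 1
  rw [← ofAdd_nsmul]
  simp

lemma shf_lmp (n : ℤ) (y : Y) : shf n * lmp 0 y = lmp n y * shf n := by
  apply Subtype.ext
  simp only [shf, lmp, Subgroup.coe_mul]
  apply RegularWreathProduct.ext
  · funext x
    simp only [RegularWreathProduct.mul_left, RegularWreathProduct.left_inl,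
      RegularWreathProduct.right_inl, one_mul, Pi.mul_apply, Pi.one_apply, mul_one]
    by_cases h : x = Multiplicative.ofAdd n
    · rw [h, inv_mul_cancel, Pi.mulSingle_eq_same, ← ofAdd_zero, Pi.mulSingle_eq_same]
    · rw [Pi.mulSingle_eq_of_ne h, Pi.mulSingle_eq_of_ne]
      · intro h2
        apply h
        rw [ofAdd_zero, inv_mul_eq_one] at h2
        exact h2.symm
  · simp

lemma lmp_comm {n : ℤ} (hn : n ≠ 0) (y y' : Y) : lmp 0 y * lmp n y' = lmp n y' * lmp 0 y := by
  apply Subtype.ext
  simp only [lmp, Subgroup.coe_mul]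
  apply RegularWreathProduct.ext
  · funext x
    simp only [RegularWreathProduct.mul_left, Pi.mul_apply, inv_one, one_mul]
    by_cases h : x = Multiplicative.ofAdd n
    · subst h
      rw [Pi.mulSingle_eq_of_ne (i := Multiplicative.ofAdd (0 : ℤ)), one_mul, mul_one]
      intro h2
      exact hn (Multiplicative.ofAdd.injective h2)
    · rw [Pi.mulSingle_eq_of_ne h, one_mul, mul_one]
  · simp

lemma lmp_mul (y y' : Y) : lmp 0 y * lmp 0 y' = lmp 0 (y * y') := by
  apply Subtype.ext
  simp only [lmp, Subgroup.coe_mul]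
  apply RegularWreathProduct.ext
  · funext x
    simp only [RegularWreathProduct.mul_left, Pi.mul_apply, inv_one, one_mul]
    by_cases h : x = Multiplicative.ofAdd 0
    · subst h; simp
    · rw [Pi.mulSingle_eq_of_ne h, Pi.mulSingle_eq_of_ne h, Pi.mulSingle_eq_of_ne h, one_mul]
  · simp

lemma lmp_inj {y y' : Y} (h : (lmp 0 y : Lamp Y) = lmp 0 y') : y = y' := by
  have h1 := congrArg (fun x : Lamp Y => x.1.left (Multiplicative.ofAdd 0)) h
  simpa [lmp] using h1

/-- In every finite quotient the lamps commute. -/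
lemma quot_comm {F : Type*} [Group F] [Finite F] (φ : Lamp Y →* F) (y y' : Y) :
    φ (lmp 0 y) * φ (lmp 0 y') = φ (lmp 0 y') * φ (lmp 0 y) := by
  have hN : φ (shf (Nat.card F : ℤ)) = 1 := by
    rw [shf_pow, map_pow, pow_card_eq_one']
  have h1 : φ (lmp 0 y') = φ (lmp (Nat.card F : ℤ) y') := by
    have := congrArg φ (shf_lmp (Nat.card F : ℤ) y')
    rw [map_mul, map_mul, hN, one_mul, mul_one] at this
    exact this
  have hne : (Nat.card F : ℤ) ≠ 0 := by exact_mod_cast Nat.card_pos.ne'
  rw [h1, ← map_mul, ← map_mul, lmp_comm hne]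

/-- the restriction to the words of length `n` -/
def res {A : Type} (Γ : Subgroup (Equiv.Perm (List A)))
    (hΓ : ∀ g ∈ Γ, ∀ w : List A, (g w).length = w.length) (n : ℕ) :
    Γ →* Equiv.Perm {w : List A // w.length = n} where
  toFun g := {
    toFun := fun w => ⟨g.1 w.1, by rw [hΓ _ g.2, w.2]⟩
    invFun := fun w => ⟨(g⁻¹).1 w.1, by rw [hΓ _ (g⁻¹).2, w.2]⟩
    left_inv := fun w => Subtype.ext (by simp)
    right_inv := fun w => Subtype.ext (by simp) }
  map_one' := by ext w; rfl
  map_mul' g h := by ext w; rfl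

theorem comm_of_equiv {A : Type} [Finite A] (Γ : Subgroup (Equiv.Perm (List A)))
    (hΓ : ∀ g ∈ Γ, ∀ w : List A, (g w).length = w.length) (e : Lamp Y ≃* Γ) (y y' : Y) :
    y * y' = y' * y := by
  apply lmp_inj
  rw [← lmp_mul, ← lmp_mul]
  apply e.injective
  apply Subtype.ext
  ext1 w
  haveI : Finite {v : List A // v.length = w.length} := List.finite_length_eq A w.length
  have h := quot_comm ((res Γ hΓ w.length).comp e.toMonoidHom) y y'
  rw [← map_mul, ← map_mul] at h
  have h2 := congrArg (fun p : Equiv.Perm {v : List A // v.length = w.length} =>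
    (p ⟨w, rfl⟩).1) h
  exact h2

lemma mem_WreathPower [Finite Y] (i : Y) : a i ∈ WreathPower Y :=
  ⟨Y, inferInstance, _, _, i, rfl⟩

lemma GY_length (g : Equiv.Perm (List Y)) (hg : g ∈ GY Y) (w : List Y) :
    (g w).length = w.length := by
  induction hg using Subgroup.closure_induction generalizing w with
  | mem p hp =>
    obtain ⟨i, rfl⟩ := hp
    exact run_length _ _ _ _
  | one => rfl
  | mul p q _ _ hp hq => rw [Equiv.Perm.mul_apply, hp, hq]
  | inv p _ hp =>
    have := hp (p⁻¹ w)
    simpa using this.symm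

end Pool.Agent.N86.Lam
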