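import Mathlib

/-! Definitions: restricted wreath product, finite state wreath power, the automaton group. -/

set_option autoImplicit false

namespace Pool.Agent.N86.Lam

open Function

variable {Y : Type} [Group Y]

/-- The restricted wreath product of `Y` by the integers, as a subgroup of the unrestricted one. -/
def Lamp (Y : Type) [Group Y] : Subgroup (RegularWreathProduct Y (Multiplicative ℤ)) where
  carrier := {x | (mulSupport x.left).Finite}
  one_mem' := by simp
  mul_mem' := by
    intro a b ha hb
    simp only [Set.mem_ofPred_eq] at ha hb ⊢
    rw [RegularWreathProduct.mul_left]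
    refine Set.Finite.subset (ha.union (hb.image (fun x => a.right * x))) ?_
    refine (mulSupport_mul _ _).trans ?_
    apply Set.union_subset_union_right
    intro x hx
    exact ⟨a.right⁻¹ * x, hx, by simp⟩
  inv_mem' := by
    intro a ha
    simp only [Set.mem_ofPred_eq] at ha ⊢
    rw [RegularWreathProduct.inv_left]
    refine Set.Finite.subset (ha.image (fun x => a.right⁻¹ * x)) ?_
    intro x hx
    refine ⟨a.right * x, ?_, by simp⟩
    intro h
    apply hx
    simp [h]

/-- The map on words given by the state `q` of an automaton over the alphabet `Y` with set of states
`Q` and transition map `δ`, in which the output map of the state `q` is the left multiplication by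
`g q`: it maps the word `x w` to the word `(g q * x) (run (δ q x) w)`. -/
def run {Q : Type} (δ : Q → Y → Q) (g : Q → Y) : Q → List Y → List Y
  | _, [] => []
  | q, x :: w => (g q * x) :: run δ g (δ q x) w

/-- The finite state wreath power of the regular group `Y`: the maps given by the states of finite
automata all of whose output maps are left multiplications. -/
def WreathPower (Y : Type) [Group Y] : Set (List Y → List Y) :=
  {f | ∃ (Q : Type) (_ : Finite Q) (δ : Q → Y → Q) (g : Q → Y) (q : Q), f = run δ g q}

/-- The map `a_i`, `a_i (j w) = (i j) (a_{j⁻¹ i} w)`. -/
def a (i : Y) : List Y → List Y := run (fun i j => j⁻¹ * i) (fun i => i) i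

lemma run_length {Q : Type} (δ : Q → Y → Q) (g : Q → Y) (q : Q) (w : List Y) :
    (run δ g q w).length = w.length := by
  induction w generalizing q with
  | nil => rfl
  | cons x w ih => simp [run, ih]

/-- every `a_i` is a bijection -/
lemma a_bij (i : Y) : Bijective (a i) := by
  constructor
  · intro u v h
    induction u generalizing i v with
    | nil =>
      have h1 := congrArg List.length h
      rw [a, run_length, run_length] at h1
      exact (List.length_eq_zero_iff.mp h1.symm).symm
    | cons x u ih =>
      cases v with
      | nil =>
        have h1 := congrArg List.length h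
        rw [a, run_length, run_length] at h1
        simp at h1
      | cons y v =>
        simp only [a, run, List.cons.injEq, mul_right_inj] at h
        obtain ⟨rfl, h2⟩ := h
        rw [ih _ h2]
  · intro v
    induction v generalizing i with
    | nil => exact ⟨[], rfl⟩
    | cons y v ih =>
      obtain ⟨u, hu⟩ := ih ((i⁻¹ * y)⁻¹ * i)
      refine ⟨(i⁻¹ * y) :: u, ?_⟩
      simp only [a, run] at hu ⊢
      rw [hu]
      simp

/-- The bijection `a_i` of the set of words. -/
noncomputable def aPerm (i : Y) : Equiv.Perm (List Y) := Equiv.ofBijective (a i) (a_bij i)

/-- The group `G_Y` generated by the bijections `a_i` under composition. -/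
def GY (Y : Type) [Group Y] : Subgroup (Equiv.Perm (List Y)) :=
  Subgroup.closure (Set.range (aPerm (Y := Y)))

end Pool.Agent.N86.Lam
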