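import Pool.Agent.N86.Had

/-! A determinant bound for integer matrices with chain structure. -/

set_option autoImplicit false

namespace Pool.Agent.N86

open Finset Matrix

/-- abstract determinant bound -/
theorem det_bound {α : Type*} [DecidableEq α] (V H : Finset α) (p : α → α) (k : α → ℕ)
    (hp : ∀ v ∈ V, p v ∈ H)
    (ν : H → ℝ) (hν : ∀ h : H, ν h = ∑ v ∈ V with p v = h, (4 : ℝ) ^ (k v))
    (hνpos : ∀ h : H, 0 < ν h)
    (hν4 : ∀ h : H, 3 * ν h ≤ 4 ^ (#{v ∈ V | p v = h}))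
    (N : Matrix H H ℤ) (i0 j0 : H) (hi0 : ∀ h, N i0 h = if h = j0 then 1 else 0)
    (r : H → α → ℤ) (hr : ∀ i, i ≠ i0 → ∑ v ∈ V, (r i v) ^ 2 ≤ 3)
    (hN : ∀ i, i ≠ i0 → ∀ h : H, N i h = ∑ v ∈ V with p v = h, r i v * 2 ^ (k v)) :
    (N.det) ^ 2 * 4 ^ (#{v ∈ V | p v = j0}) ≤ 4 ^ (#V) := by
  classical
  let A : Matrix H H ℝ := of fun i h => (Real.sqrt (ν h))⁻¹ * (N.map (Int.cast : ℤ → ℝ)) i h
  have hA : A.det = (∏ h, (Real.sqrt (ν h))⁻¹) * (N.det : ℝ) := by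
    have h1 : A.det = (∏ h, (Real.sqrt (ν h))⁻¹) * (N.map (Int.cast : ℤ → ℝ)).det :=
      Matrix.det_mul_row _ _
    rw [h1]
    congr 1
    exact (Int.cast_det N).symm
  have hH := hadamard_sq A
  have hrow0 : ∑ h, A i0 h ^ 2 = (ν j0)⁻¹ := by
    rw [Finset.sum_eq_single j0]
    · simp only [A, Matrix.of_apply, Matrix.map_apply, hi0, if_true, Int.cast_one, mul_one]
      rw [inv_pow, Real.sq_sqrt (hνpos j0).le]
    · intro b _ hb
      simp [A, hi0, hb]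
    · intro h; exact absurd (Finset.mem_univ _) h
  have hrow : ∀ i, i ≠ i0 → ∑ h, A i h ^ 2 ≤ 3 := by
    intro i hi
    have h1 : ∀ h : H, A i h ^ 2 ≤ ((∑ v ∈ V with p v = h, (r i v) ^ 2 : ℤ) : ℝ) := by
      intro h
      have e1 : A i h ^ 2 = (ν h)⁻¹ * ((N i h : ℤ) : ℝ) ^ 2 := by
        simp only [A, Matrix.of_apply, Matrix.map_apply]
        rw [mul_pow, inv_pow, Real.sq_sqrt (hνpos h).le]
      rw [e1, hN i hi h]
      have cs := Finset.sum_mul_sq_le_sq_mul_sq ({v ∈ V | p v = (h : α)})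
        (fun v => ((r i v : ℤ) : ℝ)) (fun v => (2 : ℝ) ^ (k v))
      have e2 : ∑ v ∈ V with p v = (h : α), ((2 : ℝ) ^ (k v)) ^ 2 = ν h := by
        rw [hν h]
        refine Finset.sum_congr rfl fun v _ => ?_
        rw [← pow_mul, mul_comm, pow_mul]; norm_num
      rw [e2] at cs
      rw [inv_mul_le_iff₀ (hνpos h), mul_comm]
      push_cast
      exact cs
    calc ∑ h, A i h ^ 2 ≤ ∑ h : H, ((∑ v ∈ V with p v = (h : α), (r i v) ^ 2 : ℤ) : ℝ) :=
          Finset.sum_le_sum fun h _ => h1 h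
      _ = ((∑ h : H, ∑ v ∈ V with p v = (h : α), (r i v) ^ 2 : ℤ) : ℝ) := by push_cast; rfl
      _ = ((∑ v ∈ V, (r i v) ^ 2 : ℤ) : ℝ) := by
          congr 1
          rw [Finset.sum_coe_sort H (fun h => ∑ v ∈ V with p v = h, (r i v) ^ 2)]
          exact Finset.sum_fiberwise_of_maps_to hp _
      _ ≤ 3 := by exact_mod_cast hr i hi
  -- combine
  have hprod : ∏ i, ∑ j, A i j ^ 2 ≤ (ν j0)⁻¹ * 3 ^ (Fintype.card H - 1) := by
    rw [← Finset.mul_prod_erase Finset.univ _ (Finset.mem_univ i0), hrow0]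
    have hb : ∏ x ∈ Finset.univ.erase i0, ∑ j, A x j ^ 2 ≤ 3 ^ (Fintype.card H - 1) := by
      have : ∏ x ∈ Finset.univ.erase i0, ∑ j, A x j ^ 2 ≤ ∏ x ∈ Finset.univ.erase i0, (3 : ℝ) := by
        refine Finset.prod_le_prod (fun i _ => Finset.sum_nonneg fun j _ => sq_nonneg _) ?_
        intro i hi
        exact hrow i (Finset.ne_of_mem_erase hi)
      refine this.trans (le_of_eq ?_)
      rw [Finset.prod_const, Finset.card_erase_of_mem (Finset.mem_univ _), Finset.card_univ]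
    exact mul_le_mul_of_nonneg_left hb (inv_nonneg.mpr (hνpos j0).le)
  have hcard : 1 ≤ Fintype.card H := Fintype.card_pos_iff.mpr ⟨i0⟩
  have hprodν : 0 < ∏ h, ν h := Finset.prod_pos fun h _ => hνpos h
  have hdet : ((N.det : ℤ) : ℝ) ^ 2 ≤ (∏ h, ν h) * ((ν j0)⁻¹ * 3 ^ (Fintype.card H - 1)) := by
    have h1 : A.det ^ 2 = (∏ h, ν h)⁻¹ * ((N.det : ℤ) : ℝ) ^ 2 := by
      rw [hA, mul_pow, ← Finset.prod_pow]
      congr 1
      rw [← Finset.prod_inv_distrib]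
      refine Finset.prod_congr rfl fun h _ => ?_
      rw [inv_pow, Real.sq_sqrt (hνpos h).le]
    rw [h1] at hH
    have h2 := hH.trans hprod
    rwa [inv_mul_le_iff₀ hprodν] at h2
  have h3 : ((N.det : ℤ) : ℝ) ^ 2 * (3 * ν j0) ≤ ∏ h, (3 * ν h) := by
    have e : ∏ h, (3 * ν h) = 3 ^ (Fintype.card H) * ∏ h, ν h := by
      rw [Finset.prod_mul_distrib, Finset.prod_const, Finset.card_univ]
    rw [e]
    have hj := hνpos j0
    calc ((N.det : ℤ) : ℝ) ^ 2 * (3 * ν j0)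
        ≤ ((∏ h, ν h) * ((ν j0)⁻¹ * 3 ^ (Fintype.card H - 1))) * (3 * ν j0) :=
          mul_le_mul_of_nonneg_right hdet (by positivity)
      _ = 3 ^ (Fintype.card H - 1 + 1) * ∏ h, ν h := by
          rw [pow_succ]; field_simp
      _ = 3 ^ (Fintype.card H) * ∏ h, ν h := by
          rw [Nat.sub_add_cancel hcard]
  have h4 : ((N.det : ℤ) : ℝ) ^ 2 ≤ ∏ h ∈ Finset.univ.erase j0, (3 * ν h) := by
    rw [← Finset.mul_prod_erase Finset.univ _ (Finset.mem_univ j0), mul_comm] at h3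
    exact le_of_mul_le_mul_left h3 (by have := hνpos j0; positivity)
  have h5 : ∏ h ∈ Finset.univ.erase j0, (3 * ν h) ≤
      ∏ h ∈ Finset.univ.erase j0, (4 : ℝ) ^ (#{v ∈ V | p v = (h : α)}) := by
    refine Finset.prod_le_prod (fun h _ => by have := hνpos h; positivity) fun h _ => hν4 h
  have h6 : ((N.det : ℤ) : ℝ) ^ 2 * 4 ^ (#{v ∈ V | p v = (j0 : α)}) ≤ 4 ^ (#V) := by
    have h7 : ((N.det : ℤ) : ℝ) ^ 2 * 4 ^ (#{v ∈ V | p v = (j0 : α)}) ≤
        ∏ h : H, (4 : ℝ) ^ (#{v ∈ V | p v = (h : α)}) := by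
      rw [← Finset.mul_prod_erase Finset.univ
        (fun h : H => (4 : ℝ) ^ (#{v ∈ V | p v = (h : α)})) (Finset.mem_univ j0), mul_comm]
      exact mul_le_mul_of_nonneg_left (h4.trans h5) (by positivity)
    refine h7.trans (le_of_eq ?_)
    rw [Finset.prod_pow_eq_pow_sum]
    congr 1
    rw [Finset.sum_coe_sort H (fun h => #{v ∈ V | p v = h})]
    exact (Finset.card_eq_sum_card_fiberwise hp).symm
  exact_mod_cast h6

end Pool.Agent.N86
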