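import Pool.Agent.N86.TyA

/-! Chains `h, 2h, 4h, ...` in a finite set of rationals. -/

set_option autoImplicit false

namespace Pool.Agent.N86

open Finset

/-- position in the doubling chain -/
noncomputable def kk (V : Finset ℚ) (v : ℚ) : ℕ := by
  classical
  exact if h : ∃ j, v / 2 ^ (j + 1) ∉ V then Nat.find h else 0

/-- head of the doubling chain -/
noncomputable def pp (V : Finset ℚ) (v : ℚ) : ℚ := v / 2 ^ (kk V v)

lemma kk_ex (V : Finset ℚ) {v : ℚ} (hv : v ≠ 0) : ∃ j, v / 2 ^ (j + 1) ∉ V := by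
  by_contra h
  push Not at h
  have hinj : Function.Injective (fun j : ℕ => v / 2 ^ (j + 1)) := by
    intro i j hij
    simp only at hij
    rw [div_eq_div_iff (by positivity) (by positivity)] at hij
    have h2 : (2 : ℚ) ^ (j + 1) = 2 ^ (i + 1) := mul_left_cancel₀ hv hij
    have h3 : (2 : ℕ) ^ (j + 1) = 2 ^ (i + 1) := by exact_mod_cast h2
    have := Nat.pow_right_injective (le_refl 2) h3
    omega
  exact Set.infinite_of_injective_forall_mem hinj (s := (V : Set ℚ)) (fun j => h j)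
    V.finite_toSet

lemma kk_zero (V : Finset ℚ) : kk V 0 = 0 := by
  classical
  unfold kk
  split_ifs with h
  · rw [Nat.find_eq_zero]
    obtain ⟨j, hj⟩ := h
    simpa using hj
  · rfl

lemma pp_zero (V : Finset ℚ) : pp V 0 = 0 := by simp [pp]

lemma kk_spec (V : Finset ℚ) {v : ℚ} (hv : v ≠ 0) : v / 2 ^ (kk V v + 1) ∉ V := by
  classical
  have h := kk_ex V hv
  unfold kk
  rw [dif_pos h]
  exact Nat.find_spec h

lemma kk_min (V : Finset ℚ) {v : ℚ} (hv : v ≠ 0) {i : ℕ} (hi : i < kk V v) :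
    v / 2 ^ (i + 1) ∈ V := by
  classical
  have h := kk_ex V hv
  unfold kk at hi
  rw [dif_pos h] at hi
  have := Nat.find_min h hi
  simpa using this

lemma kk_unique (V : Finset ℚ) {v : ℚ} (hv : v ≠ 0) {m : ℕ} (h1 : v / 2 ^ (m + 1) ∉ V)
    (h2 : ∀ i < m, v / 2 ^ (i + 1) ∈ V) : kk V v = m := by
  rcases lt_trichotomy (kk V v) m with h | h | h
  · exact absurd (h2 _ h) (kk_spec V hv)
  · exact h
  · exact absurd (kk_min V hv h) h1

lemma pp_mul (V : Finset ℚ) (v : ℚ) : v = 2 ^ (kk V v) * pp V v := by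
  unfold pp
  field_simp

lemma pp_ne_zero (V : Finset ℚ) {v : ℚ} (hv : v ≠ 0) : pp V v ≠ 0 := by
  unfold pp
  positivity

lemma mem_of_le (V : Finset ℚ) {v : ℚ} (hvV : v ∈ V) (hv : v ≠ 0) {i : ℕ} (hi : i ≤ kk V v) :
    v / 2 ^ i ∈ V := by
  rcases i with _ | i
  · simpa using hvV
  · exact kk_min V hv (by omega)

lemma pp_mem (V : Finset ℚ) {v : ℚ} (hvV : v ∈ V) : pp V v ∈ V := by
  by_cases hv : v = 0
  · subst hv; rw [pp_zero]; exact hvV
  · exact mem_of_le V hvV hv le_rfl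

/-- all elements of the chain below `v` -/
lemma kk_chain (V : Finset ℚ) {v : ℚ} (hvV : v ∈ V) (hv : v ≠ 0) {i : ℕ} (hi : i ≤ kk V v) :
    kk V (v / 2 ^ (kk V v - i)) = i ∧ pp V (v / 2 ^ (kk V v - i)) = pp V v := by
  have hw : v / 2 ^ (kk V v - i) ≠ 0 := by positivity
  have e : kk V (v / 2 ^ (kk V v - i)) = i := by
    apply kk_unique V hw
    · have : v / 2 ^ (kk V v - i) / 2 ^ (i + 1) = v / 2 ^ (kk V v + 1) := by
        rw [div_div, ← pow_add]; congr 2; omega
      rw [this]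
      exact kk_spec V hv
    · intro j hj
      have : v / 2 ^ (kk V v - i) / 2 ^ (j + 1) = v / 2 ^ ((kk V v - i + j) + 1) := by
        rw [div_div, ← pow_add]; congr 2
      rw [this]
      exact kk_min V hv (by omega)
  refine ⟨e, ?_⟩
  unfold pp
  rw [e, div_div, ← pow_add]
  congr 2
  omega

lemma kk_pp (V : Finset ℚ) {v : ℚ} (hvV : v ∈ V) : kk V (pp V v) = 0 := by
  by_cases hv : v = 0
  · subst hv; rw [pp_zero, kk_zero]
  · have := (kk_chain V hvV hv (Nat.zero_le _)).1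
    simpa [pp] using this

lemma pp_pp (V : Finset ℚ) {v : ℚ} (hvV : v ∈ V) : pp V (pp V v) = pp V v := by
  by_cases hv : v = 0
  · subst hv; rw [pp_zero, pp_zero]
  · have := (kk_chain V hvV hv (Nat.zero_le _)).2
    simpa [pp] using this

lemma kk_double (V : Finset ℚ) {v : ℚ} (hvV : v ∈ V) (hv : v ≠ 0) :
    kk V (v + v) = kk V v + 1 := by
  have hw : v + v ≠ 0 := by
    intro h; apply hv; linarith
  apply kk_unique V hw
  · have : (v + v) / 2 ^ (kk V v + 1 + 1) = v / 2 ^ (kk V v + 1) := by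
      rw [pow_succ _ (kk V v + 1)]; field_simp; ring
    rw [this]
    exact kk_spec V hv
  · intro j hj
    have : (v + v) / 2 ^ (j + 1) = v / 2 ^ j := by
      rw [pow_succ]; field_simp; ring
    rw [this]
    exact mem_of_le V hvV hv (by omega)

lemma pp_double (V : Finset ℚ) {v : ℚ} (hvV : v ∈ V) (hv : v ≠ 0) :
    pp V (v + v) = pp V v := by
  unfold pp
  rw [kk_double V hvV hv, pow_succ]
  field_simp
  ring

lemma eq_range_of_down (T : Finset ℕ) (h : ∀ m ∈ T, ∀ i ≤ m, i ∈ T) : T = range (#T) := by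
  rcases T.eq_empty_or_nonempty with rfl | hne
  · simp
  · have hT : T = range (T.max' hne + 1) := by
      ext i
      rw [mem_range]
      constructor
      · intro hi
        have := T.le_max' i hi
        omega
      · intro hi
        exact h _ (T.max'_mem hne) i (by omega)
    have hc : #T = T.max' hne + 1 := by
      conv_lhs => rw [hT]
      rw [card_range]
    rw [hc]
    exact hT

/-- the fibre structure -/
lemma fiber (V : Finset ℚ) {h : ℚ} (hh : h ∈ V.image (pp V)) :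
    ({v ∈ V | pp V v = h}).image (kk V) = range (#{v ∈ V | pp V v = h}) ∧
    Set.InjOn (kk V) ({v ∈ V | pp V v = h} : Finset ℚ) := by
  have hinj : Set.InjOn (kk V) ({v ∈ V | pp V v = h} : Finset ℚ) := by
    intro a ha b hb hab
    simp only [coe_filter, Set.mem_setOf_eq] at ha hb
    rw [pp_mul V a, pp_mul V b, ha.2, hb.2, hab]
  refine ⟨?_, hinj⟩
  rw [← card_image_of_injOn hinj]
  apply eq_range_of_down
  intro m hm i hi
  rw [mem_image] at hm ⊢
  obtain ⟨v, hv, rfl⟩ := hm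
  rw [mem_filter] at hv
  by_cases hv0 : v = 0
  · subst hv0
    rw [kk_zero] at hi
    refine ⟨0, ?_, ?_⟩
    · rw [mem_filter]; exact hv
    · rw [kk_zero]; omega
  · have hc := kk_chain V hv.1 hv0 hi
    refine ⟨v / 2 ^ (kk V v - i), ?_, hc.1⟩
    rw [mem_filter]
    exact ⟨mem_of_le V hv.1 hv0 (by omega), hc.2.trans hv.2⟩

lemma fiber_lt (V : Finset ℚ) {v : ℚ} (hv : v ∈ V) :
    kk V v < #{w ∈ V | pp V w = pp V v} := by
  have h := (fiber V (mem_image_of_mem (pp V) hv)).1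
  have h2 : kk V v ∈ ({w ∈ V | pp V w = pp V v}).image (kk V) :=
    mem_image_of_mem _ (by rw [mem_filter]; exact ⟨hv, rfl⟩)
  rw [h, mem_range] at h2
  exact h2

lemma fiber_sum (V : Finset ℚ) {h : ℚ} (hh : h ∈ V.image (pp V)) :
    3 * ∑ v ∈ V with pp V v = h, (4 : ℝ) ^ (kk V v) = 4 ^ (#{v ∈ V | pp V v = h}) - 1 := by
  obtain ⟨h1, h2⟩ := fiber V hh
  have e : ∑ v ∈ V with pp V v = h, (4 : ℝ) ^ (kk V v) =
      ∑ i ∈ range (#{v ∈ V | pp V v = h}), (4 : ℝ) ^ i := by
    rw [← h1, sum_image h2]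
  rw [e, geom_sum_eq (by norm_num)]
  ring

end Pool.Agent.N86
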