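import Pool.Agent.N86.TyB

/-! The bound for rigid finite sets of rationals. -/

set_option autoImplicit false

namespace Pool.Agent.N86

open Finset Matrix

/-- the pairs whose equations are not doublings -/
def QQ (V : Finset ℚ) : Finset (ℚ × ℚ) :=
  {q ∈ V ×ˢ V | q.1 + q.2 ∈ V ∧ ¬ (q.1 = q.2 ∧ q.1 ≠ 0)}

/-- the row of an equation -/
def rr (q : ℚ × ℚ) (v : ℚ) : ℤ :=
  (if v = q.1 then 1 else 0) + (if v = q.2 then 1 else 0) - (if v = q.1 + q.2 then 1 else 0)

/-- the reduced row -/
noncomputable def Bz (V : Finset ℚ) (q : ℚ × ℚ) (h : ℚ) : ℤ :=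
  ∑ v ∈ V with pp V v = h, rr q v * 2 ^ (kk V v)

lemma rr_sq (V : Finset ℚ) (q : ℚ × ℚ) (hq : q ∈ QQ V) : ∑ v ∈ V, (rr q v) ^ 2 ≤ 3 := by
  obtain ⟨a, b⟩ := q
  simp only [QQ, mem_filter, mem_product] at hq
  obtain ⟨⟨ha, hb⟩, hab, hne⟩ := hq
  simp only [rr]
  by_cases hb0 : b = 0
  · subst hb0
    have : ∀ v ∈ V, ((if v = a then (1:ℤ) else 0) + (if v = 0 then 1 else 0) -
        (if v = a + 0 then 1 else 0)) ^ 2 = if v = 0 then 1 else 0 := by
      intro v _
      rw [add_zero]
      split_ifs <;> norm_num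
    rw [sum_congr rfl this, sum_ite_eq']
    split_ifs <;> norm_num
  by_cases ha0 : a = 0
  · subst ha0
    have : ∀ v ∈ V, ((if v = 0 then (1:ℤ) else 0) + (if v = b then 1 else 0) -
        (if v = 0 + b then 1 else 0)) ^ 2 = if v = 0 then 1 else 0 := by
      intro v _
      rw [zero_add]
      split_ifs <;> norm_num
    rw [sum_congr rfl this, sum_ite_eq']
    split_ifs <;> norm_num
  have hab' : a ≠ b := fun h => hne ⟨h, ha0⟩
  have h1 : a ≠ a + b := by intro h; apply hb0; linarith
  have h2 : b ≠ a + b := by intro h; apply ha0; linarith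
  have : ∀ v ∈ V, ((if v = a then (1:ℤ) else 0) + (if v = b then 1 else 0) -
        (if v = a + b then 1 else 0)) ^ 2 = (if v = a then (1:ℤ) else 0) +
        (if v = b then 1 else 0) + (if v = a + b then 1 else 0) := by
    intro v _
    by_cases e1 : v = a
    · subst e1
      simp [hab', h1]
    by_cases e2 : v = b
    · subst e2
      simp [e1, h2]
    simp [e1, e2]
  rw [sum_congr rfl this, sum_add_distrib, sum_add_distrib, sum_ite_eq', sum_ite_eq', sum_ite_eq']
  split_ifs <;> norm_num

/-- rigidity of a finite set of rationals -/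
def Rig (V : Finset ℚ) : Prop :=
  ∀ g : ℚ → ℚ, g 1 = 1 → (∀ a ∈ V, ∀ b ∈ V, a + b ∈ V → g (a + b) = g a + g b) →
    ∀ a ∈ V, g a = a

lemma rig_hom {V : Finset ℚ} (h1 : (1 : ℚ) ∈ V) (hr : Rig V) (g : ℚ → ℚ)
    (hg : ∀ a ∈ V, ∀ b ∈ V, a + b ∈ V → g (a + b) = g a + g b) :
    ∀ a ∈ V, g a = g 1 * a := by
  intro a ha
  by_cases h : g 1 = 0
  · have := hr (fun x => (g x) + x) (by simp [h]) (fun a ha b hb hab => by
      rw [hg a ha b hb hab]; ring) a ha
    rw [h]; linarith
  · have := hr (fun x => g x / g 1) (by simp [h]) (fun a ha b hb hab => by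
      rw [hg a ha b hb hab]; ring) a ha
    rw [div_eq_iff h] at this
    rw [this]; ring

section Main

variable (V : Finset ℚ)

/-- the set of heads -/
noncomputable def HH : Finset ℚ := V.image (pp V)

lemma pp_mem_HH {v : ℚ} (hv : v ∈ V) : pp V v ∈ HH V := mem_image_of_mem _ hv

lemma HH_mem {h : ℚ} (hh : h ∈ HH V) : h ∈ V := by
  obtain ⟨v, hv, rfl⟩ := mem_image.mp hh
  exact pp_mem V hv

lemma pp_head {h : ℚ} (hh : h ∈ HH V) : pp V h = h := by
  obtain ⟨v, hv, rfl⟩ := mem_image.mp hh
  exact pp_pp V hv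

lemma kk_head {h : ℚ} (hh : h ∈ HH V) : kk V h = 0 := by
  obtain ⟨v, hv, rfl⟩ := mem_image.mp hh
  exact kk_pp V hv

/-- rows as vectors -/
noncomputable def row (q : QQ V) : HH V → ℚ := fun h => (Bz V q h : ℚ)

/-- dot product -/
noncomputable def dot (x t : HH V → ℚ) : ℚ := ∑ h, x h * t h

/-- the function on `V` coming from a function on the heads -/
noncomputable def ext (t : HH V → ℚ) (v : ℚ) : ℚ :=
  2 ^ (kk V v) * (if hx : pp V v ∈ HH V then t ⟨pp V v, hx⟩ else 0)

lemma row_dot (q : QQ V) (t : HH V → ℚ) :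
    dot V (row V q) t = ext V t q.1.1 + ext V t q.1.2 - ext V t (q.1.1 + q.1.2) := by
  classical
  obtain ⟨⟨a, b⟩, hq⟩ := q
  have hq' := hq
  simp only [QQ, mem_filter, mem_product] at hq'
  obtain ⟨⟨ha, hb⟩, hab, -⟩ := hq'
  simp only [dot, row]
  set t' : ℚ → ℚ := fun x => if hx : x ∈ HH V then t ⟨x, hx⟩ else 0 with ht'
  have e1 : ∑ h : HH V, (Bz V (a, b) h : ℚ) * t h = ∑ h ∈ HH V, (Bz V (a, b) h : ℚ) * t' h := by
    rw [← Finset.sum_coe_sort (HH V) (fun h => (Bz V (a, b) h : ℚ) * t' h)]
    refine Finset.sum_congr rfl fun h _ => ?_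
    simp [ht']
  rw [e1]
  have e2 : ∀ h ∈ HH V, (Bz V (a, b) h : ℚ) * t' h =
      ∑ v ∈ V with pp V v = h, ((rr (a, b) v : ℤ) : ℚ) * ext V t v := by
    intro h hh
    rw [Bz, Int.cast_sum, Finset.sum_mul]
    refine Finset.sum_congr rfl fun v hv => ?_
    rw [mem_filter] at hv
    rw [ext, hv.2]
    simp only [ht']
    push_cast
    ring
  rw [Finset.sum_congr rfl e2, Finset.sum_fiberwise_of_maps_to (fun v hv => pp_mem_HH V hv)]
  simp only [rr]
  push_cast
  have e3 : ∀ v ∈ V, ((if v = a then (1:ℚ) else 0) + (if v = b then 1 else 0) -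
      (if v = a + b then 1 else 0)) * ext V t v =
      (if v = a then ext V t v else 0) + (if v = b then ext V t v else 0) -
      (if v = a + b then ext V t v else 0) := by
    intro v _
    split_ifs <;> ring
  rw [Finset.sum_congr rfl e3, Finset.sum_sub_distrib, Finset.sum_add_distrib,
    Finset.sum_ite_eq', Finset.sum_ite_eq', Finset.sum_ite_eq', if_pos ha, if_pos hb, if_pos hab]

/-- the vector of heads -/
noncomputable def tau : HH V → ℚ := fun h => h

lemma ext_tau {v : ℚ} (hv : v ∈ V) : ext V (tau V) v = v := by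
  rw [ext, dif_pos (pp_mem_HH V hv)]
  exact (pp_mul V v).symm

lemma row_tau (q : QQ V) : dot V (row V q) (tau V) = 0 := by
  rw [row_dot]
  obtain ⟨⟨a, b⟩, hq⟩ := q
  have hq' := hq
  simp only [QQ, mem_filter, mem_product] at hq'
  obtain ⟨⟨ha, hb⟩, hab, -⟩ := hq'
  simp only
  rw [ext_tau V ha, ext_tau V hb, ext_tau V hab]
  ring

lemma kernel (h1 : (1 : ℚ) ∈ V) (hr : Rig V) (t : HH V → ℚ)
    (ht : ∀ q : QQ V, dot V (row V q) t = 0) : t = ext V t 1 • tau V := by
  have hg := rig_hom h1 hr (ext V t) (by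
    intro a ha b hb hab
    by_cases h : a = b ∧ a ≠ 0
    · obtain ⟨rfl, h0⟩ := h
      have e1 : ext V t (a + a) = 2 * ext V t a := by
        unfold ext
        rw [pp_double V ha h0, kk_double V ha h0, pow_succ]
        ring
      rw [e1]; ring
    · have hq : (a, b) ∈ QQ V := by
        simp only [QQ, mem_filter, mem_product]
        exact ⟨⟨ha, hb⟩, hab, h⟩
      have := ht ⟨(a, b), hq⟩
      rw [row_dot] at this
      simp only at this
      linarith)
  funext h
  have := hg h (HH_mem V h.2)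
  rw [ext, kk_head V h.2] at this
  simp only [pow_zero, one_mul] at this
  have hp := pp_head V h.2
  rw [dif_pos (by rw [hp]; exact h.2)] at this
  simp only [Pi.smul_apply, smul_eq_mul, tau]
  rw [← this]
  congr 1
  exact Subtype.ext hp.symm

lemma dot_add_left (x y t : HH V → ℚ) : dot V (x + y) t = dot V x t + dot V y t := by
  simp only [dot, Pi.add_apply, add_mul, Finset.sum_add_distrib]

lemma dot_smul_left (c : ℚ) (x t : HH V → ℚ) : dot V (c • x) t = c * dot V x t := by
  simp only [dot, Pi.smul_apply, smul_eq_mul, mul_assoc, Finset.mul_sum]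

lemma dot_span {S : Set (HH V → ℚ)} (t : HH V → ℚ) (h : ∀ x ∈ S, dot V x t = 0)
    {x : HH V → ℚ} (hx : x ∈ Submodule.span ℚ S) : dot V x t = 0 := by
  induction hx using Submodule.span_induction with
  | mem x hx => exact h x hx
  | zero => simp [dot]
  | add x y _ _ hx hy => rw [dot_add_left, hx, hy, add_zero]
  | smul c x _ hx => rw [dot_smul_left, hx, mul_zero]

lemma tau_dot_pos (h1 : (1 : ℚ) ∈ V) : 0 < dot V (tau V) (tau V) := by
  unfold dot tau
  have h : pp V 1 ∈ HH V := pp_mem_HH V h1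
  refine Finset.sum_pos' (fun i _ => mul_self_nonneg _) ⟨⟨pp V 1, h⟩, Finset.mem_univ _, ?_⟩
  exact mul_self_pos.mpr (pp_ne_zero V one_ne_zero)

/-- the integer cofactors -/
theorem exists_cof (h1 : (1 : ℚ) ∈ V) (hr : Rig V) :
    ∃ (cof : HH V → ℤ) (c : ℚ), c ≠ 0 ∧ (∀ h : HH V, (cof h : ℚ) = c * h) ∧
      ∀ h : HH V, (cof h) ^ 2 * 4 ^ (#{v ∈ V | pp V v = h}) ≤ 4 ^ (#V) := by
  classical
  obtain ⟨κ, a, hainj, haspan, hali⟩ := exists_linearIndependent' ℚ (row V)
  haveI : Finite κ := Finite.of_injective a hainj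
  haveI : Fintype κ := Fintype.ofFinite κ
  let w : Option κ → (HH V → ℚ) := fun o => o.elim (tau V) (fun i => row V (a i))
  have hτ : tau V ∉ Submodule.span ℚ (Set.range (row V ∘ a)) := by
    intro h
    rw [haspan] at h
    have := dot_span V (tau V) (by
      rintro x ⟨q, rfl⟩; exact row_tau V q) h
    exact absurd this (tau_dot_pos V h1).ne'
  have hwli : LinearIndependent ℚ w := by
    rw [linearIndependent_option]
    exact ⟨hali, hτ⟩
  have hwspan : Submodule.span ℚ (Set.range w) = ⊤ := by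
    by_contra hne
    obtain ⟨f, hf0, hf⟩ := Submodule.exists_le_ker_of_lt_top _ (lt_top_iff_ne_top.mpr hne)
    set t : HH V → ℚ := fun h => f (Pi.single h 1) with ht
    have hft : ∀ x, f x = dot V x t := by
      intro x
      have hx : x = ∑ h, x h • (Pi.single h (1 : ℚ) : HH V → ℚ) := by
        funext j
        simp [Finset.sum_apply, Pi.single_apply]
      conv_lhs => rw [hx]
      rw [map_sum]
      simp only [dot, map_smul, smul_eq_mul, ht]
    have hk : ∀ q : QQ V, dot V (row V q) t = 0 := by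
      intro q
      apply dot_span V (S := Set.range (row V ∘ a)) t
      · rintro x ⟨i, rfl⟩
        rw [← hft]
        exact hf (Submodule.subset_span ⟨some i, rfl⟩)
      · rw [haspan]; exact Submodule.subset_span ⟨q, rfl⟩
    have hker := kernel V h1 hr t hk
    have h0 : dot V (tau V) t = 0 := by
      rw [← hft]
      exact hf (Submodule.subset_span ⟨none, rfl⟩)
    have h2 : dot V (tau V) t = ext V t 1 * dot V (tau V) (tau V) := by
      conv_lhs => rw [hker]
      simp only [dot, Pi.smul_apply, smul_eq_mul, Finset.mul_sum]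
      refine Finset.sum_congr rfl fun i _ => ?_
      ring
    rw [h2] at h0
    rcases mul_eq_zero.mp h0 with h3 | h3
    · rw [h3, zero_smul] at hker
      apply hf0
      ext x
      simp only [LinearMap.comp_apply, LinearMap.zero_apply]
      rw [hft, hker]
      simp [dot]
    · exact absurd h3 (tau_dot_pos V h1).ne'
  let bas : Module.Basis (Option κ) ℚ (HH V → ℚ) := Module.Basis.mk hwli hwspan.ge
  have hcard : Fintype.card (Option κ) = Fintype.card (HH V) := by
    have h2 := Module.finrank_eq_card_basis bas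
    rw [Module.finrank_fintype_fun_eq_card] at h2
    exact h2.symm
  let e : HH V ≃ Option κ := Fintype.equivOfCardEq hcard.symm
  let M : Matrix (HH V) (HH V) ℚ := of fun i => w (e i)
  let i0 : HH V := e.symm none
  have hMdet : M.det ≠ 0 := by
    have hli : LinearIndependent ℚ (fun i => M i) := by
      have := hwli.comp e e.injective
      exact this
    have := Matrix.linearIndependent_rows_iff_isUnit.mp hli
    rw [Matrix.isUnit_iff_isUnit_det] at this
    exact this.ne_zero
  let N : HH V → Matrix (HH V) (HH V) ℤ := fun h => of fun i h' =>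
    (e i).elim (if h' = h then 1 else 0) (fun x => Bz V (a x) h')
  have hN : ∀ h, (N h).map (Int.cast : ℤ → ℚ) = M.updateRow i0 (Pi.single h 1) := by
    intro h
    ext i h'
    by_cases hi : i = i0
    · subst hi
      rw [Matrix.updateRow_self]
      simp only [N, Matrix.map_apply, Matrix.of_apply, i0, Equiv.apply_symm_apply, Option.elim_none]
      rw [Pi.single_apply]
      split_ifs <;> simp
    · rw [Matrix.updateRow_ne hi]
      have : e i ≠ none := by
        intro h2; apply hi; simp only [i0]; rw [← h2, Equiv.symm_apply_apply]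
      obtain ⟨x, hx⟩ := Option.ne_none_iff_exists'.mp this
      simp only [N, M, Matrix.map_apply, Matrix.of_apply, hx, Option.elim_some, w, row]
  have hcof : ∀ h, ((N h).det : ℚ) = M.adjugate h i0 := by
    intro h
    rw [Matrix.adjugate_apply, ← hN h]
    exact Int.cast_det (N h)
  have hmul := Matrix.mul_adjugate M
  have hrow : ∀ x : κ, dot V (row V (a x)) (fun h => M.adjugate h i0) = 0 := by
    intro x
    have := congrFun (congrFun hmul (e.symm (some x))) i0
    rw [Matrix.mul_apply] at this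
    have hne : e.symm (some x) ≠ i0 := by
      intro h2
      have := e.symm.injective h2
      exact absurd this (by simp)
    rw [Matrix.smul_apply, Matrix.one_apply_ne hne, smul_zero] at this
    rw [← this]
    unfold dot
    refine Finset.sum_congr rfl fun h _ => ?_
    simp [M, w]
  have hrow2 : ∀ q : QQ V, dot V (row V q) (fun h => M.adjugate h i0) = 0 := by
    intro q
    apply dot_span V (S := Set.range (row V ∘ a))
    · rintro x ⟨i, rfl⟩
      exact hrow i
    · rw [haspan]; exact Submodule.subset_span ⟨q, rfl⟩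
  have hker := kernel V h1 hr _ hrow2
  set c := ext V (fun h => M.adjugate h i0) 1 with hc
  refine ⟨fun h => (N h).det, c, ?_, ?_, ?_⟩
  · intro hc0
    rw [hc0, zero_smul] at hker
    have := congrFun (congrFun hmul i0) i0
    rw [Matrix.mul_apply, Matrix.smul_apply, Matrix.one_apply_eq, smul_eq_mul, mul_one] at this
    apply hMdet
    rw [← this]
    refine Finset.sum_eq_zero fun h _ => ?_
    have h9 : M.adjugate h i0 = 0 := congrFun hker h
    rw [h9, mul_zero]
  · intro h
    rw [hcof h]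
    have := congrFun hker h
    simpa [tau] using this
  · intro h
    refine det_bound V (HH V) (pp V) (kk V) (fun v hv => pp_mem_HH V hv)
      (fun h => ∑ v ∈ V with pp V v = h, (4 : ℝ) ^ (kk V v)) (fun h => rfl) ?_ ?_ (N h) i0 h ?_
      (fun i => (e i).elim 0 (fun x => rr (a x))) ?_ ?_
    · intro h'
      have hmem := (mem_image.mp h'.2)
      obtain ⟨v, hv, hv2⟩ := hmem
      refine Finset.sum_pos (fun _ _ => by positivity) ⟨v, ?_⟩
      rw [mem_filter]; exact ⟨hv, hv2⟩
    · intro h'
      rw [fiber_sum V h'.2]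
      linarith
    · intro h'
      simp only [N, Matrix.of_apply, i0, Equiv.apply_symm_apply, Option.elim_none]
    · intro i hi
      have : e i ≠ none := by
        intro h2; apply hi; simp only [i0]; rw [← h2, Equiv.symm_apply_apply]
      obtain ⟨x, hx⟩ := Option.ne_none_iff_exists'.mp this
      simp only [hx, Option.elim_some]
      exact rr_sq V _ (a x).2
    · intro i hi h'
      have : e i ≠ none := by
        intro h2; apply hi; simp only [i0]; rw [← h2, Equiv.symm_apply_apply]
      obtain ⟨x, hx⟩ := Option.ne_none_iff_exists'.mp this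
      simp only [N, Matrix.of_apply, hx, Option.elim_some, Bz]

theorem rig_bound (h1 : (1 : ℚ) ∈ V) (hr : Rig V) :
    ∃ n : ℚ → ℤ, n 1 ≠ 0 ∧ (∀ v ∈ V, v = (n v : ℚ) / n 1) ∧ ∀ v ∈ V, |n v| ≤ 2 ^ (#V - 1) := by
  classical
  obtain ⟨cof, c, hc, hcof, hb⟩ := exists_cof V h1 hr
  let n : ℚ → ℤ := fun v => 2 ^ (kk V v) * (if hx : pp V v ∈ HH V then cof ⟨pp V v, hx⟩ else 0)
  have hn : ∀ v ∈ V, (n v : ℚ) = c * v := by
    intro v hv
    simp only [n]
    rw [dif_pos (pp_mem_HH V hv)]
    push_cast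
    rw [hcof]
    simp only
    conv_rhs => rw [pp_mul V v]
    ring
  have hn1 : (n 1 : ℚ) ≠ 0 := by
    rw [hn 1 h1]; simpa using hc
  refine ⟨n, fun h => hn1 (by rw [h]; simp), ?_, ?_⟩
  · intro v hv
    rw [hn v hv, hn 1 h1]
    field_simp
  · intro v hv
    have hcard : 1 ≤ #V := Finset.card_pos.mpr ⟨1, h1⟩
    have h2 := hb ⟨pp V v, pp_mem_HH V hv⟩
    simp only at h2
    have hlt := fiber_lt V hv
    set ℓ := #{w ∈ V | pp V w = pp V v} with hℓ
    set N := cof ⟨pp V v, pp_mem_HH V hv⟩ with hN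
    have hnv : n v = 2 ^ (kk V v) * N := by
      simp only [n]
      rw [dif_pos (pp_mem_HH V hv)]
    have h3 : (2 * n v) ^ 2 ≤ (2 ^ (#V)) ^ 2 := by
      rw [hnv]
      calc (2 * (2 ^ (kk V v) * N)) ^ 2 = 4 ^ (kk V v + 1) * N ^ 2 := by
            rw [mul_pow, mul_pow, ← pow_mul, mul_comm (kk V v) 2, pow_mul, pow_succ]; norm_num; ring
        _ ≤ 4 ^ ℓ * N ^ 2 := by
            apply mul_le_mul_of_nonneg_right _ (sq_nonneg _)
            exact pow_le_pow_right₀ (by norm_num) (by omega)
        _ = N ^ 2 * 4 ^ ℓ := by ring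
        _ ≤ 4 ^ (#V) := h2
        _ = (2 ^ (#V)) ^ 2 := by rw [← pow_mul, mul_comm, pow_mul]; norm_num
    have h4 : |2 * n v| ≤ 2 ^ (#V) := abs_le_of_sq_le_sq h3 (by positivity)
    rw [abs_mul] at h4
    have h5 : (2 : ℤ) ^ (#V) = 2 * 2 ^ (#V - 1) := by
      rw [← pow_succ', Nat.sub_add_cancel hcard]
    rw [h5] at h4
    simp only [abs_two] at h4
    linarith

end Main

end Pool.Agent.N86
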