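import Pool.Agent.N86.TyC

/-! From rigid sets to systems of equations. -/

set_option autoImplicit false

namespace Pool.Agent.N86

open Finset

/-- the set of equations satisfied by a tuple -/
def sat {K : Type*} [One K] [Add K] {n : ℕ} (x : Fin n → K) :
    Set (Fin n ⊕ (Fin n × Fin n × Fin n)) :=
  {e | match e with
    | Sum.inl i => x i = 1
    | Sum.inr (i, j, k) => x i + x j = x k}

lemma sat_inl {K : Type*} [One K] [Add K] {n : ℕ} (x : Fin n → K) (i : Fin n) :
    Sum.inl i ∈ sat x ↔ x i = 1 := Iff.rfl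

lemma sat_inr {K : Type*} [One K] [Add K] {n : ℕ} (x : Fin n → K) (i j k : Fin n) :
    Sum.inr (i, j, k) ∈ sat x ↔ x i + x j = x k := Iff.rfl

lemma sat_le {K L : Type*} [One K] [Add K] [One L] [Add L] {n : ℕ} {x : Fin n → K}
    {y : Fin n → L} : sat x ⊆ sat y ↔
      (∀ i, x i = 1 → y i = 1) ∧ ∀ i j k, x i + x j = x k → y i + y j = y k := by
  constructor
  · intro h
    exact ⟨fun i hi => h (a := Sum.inl i) hi, fun i j k hh => h (a := Sum.inr (i, j, k)) hh⟩
  · rintro ⟨h1, h2⟩ (i | ⟨i, j, k⟩) he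
    · exact h1 i he
    · exact h2 i j k he

lemma num_den_bound {a b : ℤ} {B : ℤ} (hb0 : b ≠ 0) (ha : |a| ≤ B) (hb : |b| ≤ B) :
    |((a : ℚ) / b).num| ≤ B ∧ ((((a : ℚ) / b).den : ℕ) : ℤ) ≤ B := by
  have e : (a : ℚ) / b = Rat.divInt a b := (Rat.divInt_eq_div a b).symm
  rw [e]
  constructor
  · have h := Rat.num_dvd a hb0
    by_cases ha0 : a = 0
    · subst ha0
      simp only [Rat.zero_divInt, Rat.num_zero, abs_zero]
      exact (abs_nonneg b).trans hb
    · have h2 : |(Rat.divInt a b).num| ∣ |a| := by rwa [abs_dvd_abs]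
      exact (Int.le_of_dvd (abs_pos.mpr ha0) h2).trans ha
  · have h := Rat.den_dvd a b
    have h2 : ((Rat.divInt a b).den : ℤ) ∣ |b| := by rwa [dvd_abs]
    exact (Int.le_of_dvd (abs_pos.mpr hb0) h2).trans hb

/-- rational tuples that are the only solutions of their equations -/
theorem uniq_bound {n : ℕ} (x : Fin n → ℚ)
    (hx : ∀ y : Fin n → ℚ, sat x ⊆ sat y → y = x) (i : Fin n) :
    |(x i).num| ≤ 2 ^ (n - 1) ∧ ((x i).den : ℤ) ≤ 2 ^ (n - 1) := by
  classical
  by_cases h : ∃ i0, x i0 = 1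
  · obtain ⟨i0, hi0⟩ := h
    set V : Finset ℚ := Finset.univ.image x with hV
    have hmem : ∀ i, x i ∈ V := fun i => mem_image_of_mem x (mem_univ i)
    have h1 : (1 : ℚ) ∈ V := hi0 ▸ hmem i0
    have hcard : #V ≤ n := by
      have := card_image_le (s := (Finset.univ : Finset (Fin n))) (f := x)
      simpa using this
    have hrig : Rig V := by
      intro g hg1 hg a ha
      obtain ⟨j, _, rfl⟩ := mem_image.mp ha
      have := hx (fun i => g (x i)) (sat_le.mpr ⟨fun i hi => by rw [hi, hg1], fun i j k hijk => by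
        rw [← hijk, hg _ (hmem i) _ (hmem j) (hijk ▸ hmem k)]⟩)
      exact congrFun this j
    obtain ⟨m, hm1, hmv, hmb⟩ := rig_bound V h1 hrig
    have hle : (2 : ℤ) ^ (#V - 1) ≤ 2 ^ (n - 1) :=
      pow_le_pow_right₀ (by norm_num) (by omega)
    have := num_den_bound hm1 ((hmb _ (hmem i)).trans hle) ((hmb _ h1).trans hle)
    rw [← hmv _ (hmem i)] at this
    exact this
  · push Not at h
    have h2 := hx (fun i => 2 * x i) (sat_le.mpr ⟨fun i hi => absurd hi (h i), fun i j k hijk => by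
      rw [← hijk]; ring⟩)
    have h3 : x i = 0 := by
      have := congrFun h2 i
      linarith
    rw [h3]
    simp only [Rat.num_zero, abs_zero, Rat.den_zero]
    exact ⟨by positivity, by
      have : (1 : ℤ) ≤ 2 ^ (n - 1) := one_le_pow₀ (by norm_num)
      simpa using this⟩

/-- a rational-linear functional on the complex numbers fixing one -/
lemma exists_functional : ∃ f : ℂ →ₗ[ℚ] ℚ, f 1 = 1 := by
  obtain ⟨f, hf⟩ := LinearMap.exists_leftInverse_of_injective
    (LinearMap.toSpanSingleton ℚ ℂ 1) (LinearMap.ker_toSpanSingleton ℚ (one_ne_zero : (1 : ℂ) ≠ 0))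
  refine ⟨f, ?_⟩
  have := LinearMap.congr_fun hf 1
  simpa using this

lemma sat_functional {n : ℕ} (f : ℂ →ₗ[ℚ] ℚ) (hf : f 1 = 1) (x : Fin n → ℂ) :
    sat x ⊆ sat (fun i => f (x i)) := by
  rw [sat_le]
  refine ⟨fun i hi => by rw [hi, hf], fun i j k h => by rw [← h, map_add]⟩

/-- every tuple can be replaced by a rigid one -/
theorem exists_uniq {n : ℕ} (x : Fin n → ℂ) :
    ∃ z : Fin n → ℚ, sat x ⊆ sat z ∧ ∀ y : Fin n → ℚ, sat z ⊆ sat y → y = z := by
  classical
  obtain ⟨f, hf⟩ := exists_functional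
  let T : Set (Set (Fin n ⊕ (Fin n × Fin n × Fin n))) :=
    {s | ∃ z : Fin n → ℚ, s = sat z ∧ sat x ⊆ s}
  have hT : T.Finite := Set.toFinite T
  obtain ⟨s, ⟨z, rfl, hxz⟩, hmax⟩ := hT.exists_maximal
    ⟨_, (fun i => f (x i)), rfl, sat_functional f hf x⟩
  refine ⟨z, hxz, fun y hy => ?_⟩
  by_contra hne
  obtain ⟨i, hi⟩ := Function.ne_iff.mp hne
  obtain ⟨hy1, hy2⟩ := sat_le.mp hy
  have hz1 : z i ≠ 1 := fun h => hi (by rw [hy1 i h, h])
  have hyz : y i - z i ≠ 0 := sub_ne_zero.mpr hi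
  set t : ℚ := (1 - z i) / (y i - z i) with ht
  let u : Fin n → ℚ := fun j => z j + t * (y j - z j)
  have hu : sat z ⊆ sat u := by
    rw [sat_le]
    refine ⟨fun j hj => ?_, fun j k l hjkl => ?_⟩
    · simp only [u]; rw [hy1 j hj, hj]; ring
    · simp only [u]; rw [← hjkl, ← hy2 j k l hjkl]; ring
  have hui : u i = 1 := by
    simp only [u, ht]
    field_simp
    ring
  have h1 : sat u ⊆ sat z := hmax (y := sat u) ⟨u, rfl, hxz.trans hu⟩ hu
  exact hz1 ((sat_inl z i).mp (h1 ((sat_inl u i).mpr hui)))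

end Pool.Agent.N86
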