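import Pool.Agent.N86.TyC

/-! Small integer solutions: the group argument. -/

set_option autoImplicit false

namespace Pool.Agent.N86

open Finset Matrix

/-- In a finite group every sum is a sum of fewer than `|G|` terms. -/
lemma short_list {G ι : Type*} [AddCommGroup G] [Finite G] (g : ι → G) :
    ∀ (m : ℕ) (L : List ι), L.length ≤ m →
      ∃ L' : List ι, (L'.map g).sum = (L.map g).sum ∧ L'.length < Nat.card G := by
  intro m
  induction m with
  | zero =>
    intro L hL
    exact ⟨L, rfl, lt_of_le_of_lt hL Nat.card_pos⟩
  | succ m ih =>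
    intro L hL
    by_cases hlt : L.length < Nat.card G
    · exact ⟨L, rfl, hlt⟩
    · push Not at hlt
      haveI : Fintype G := Fintype.ofFinite G
      have hni : ¬ Function.Injective (fun i : Fin (L.length + 1) => ((L.take i).map g).sum) := by
        intro hinj
        have := Fintype.card_le_of_injective _ hinj
        rw [Fintype.card_fin, ← Nat.card_eq_fintype_card] at this
        omega
      simp only [Function.Injective, not_forall] at hni
      obtain ⟨i, j, hij, hne⟩ := hni
      wlog hlt' : i < j generalizing i j
      · exact this j i hij.symm (Ne.symm hne) (lt_of_le_of_ne (not_lt.mp hlt') (Ne.symm hne))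
      have hlen : (L.take i ++ L.drop j).length ≤ m := by
        rw [List.length_append, List.length_take, List.length_drop]
        have := j.2
        have h3 : (i : ℕ) < j := hlt'
        omega
      obtain ⟨L', h1, h2⟩ := ih _ hlen
      refine ⟨L', ?_, h2⟩
      rw [h1, List.map_append, List.sum_append, hij, ← List.sum_append, ← List.map_append,
        List.take_append_drop]

/-- integer combinations in a finite group are sums of short lists -/
lemma exists_short {G ι : Type*} [AddCommGroup G] [Finite G] [Fintype ι] [DecidableEq ι]
    (g : ι → G) (z : ι → ℤ) :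
    ∃ s : ι → ℕ, ∑ i, (s i : ℤ) • g i = ∑ i, z i • g i ∧ ∑ i, s i < Nat.card G := by
  classical
  have h1 : ∀ S : Finset ι, ∃ L : List ι, (L.map g).sum = ∑ i ∈ S, z i • g i := by
    intro S
    induction S using Finset.induction_on with
    | empty => exact ⟨[], by simp⟩
    | insert a S ha ih =>
      obtain ⟨L, hL⟩ := ih
      refine ⟨List.replicate (z a % (Nat.card G)).toNat a ++ L, ?_⟩
      rw [List.map_append, List.sum_append, hL, Finset.sum_insert ha, List.map_replicate,
        List.sum_replicate]
      congr 1
      have hpos : (0 : ℤ) < Nat.card G := by exact_mod_cast Nat.card_pos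
      have e1 : ((z a % (Nat.card G)).toNat : ℤ) = z a % (Nat.card G) :=
        Int.toNat_of_nonneg (Int.emod_nonneg _ hpos.ne')
      rw [← natCast_zsmul, e1]
      have e2 : z a = (Nat.card G) * (z a / (Nat.card G)) + z a % (Nat.card G) :=
        (Int.mul_ediv_add_emod _ _).symm
      conv_rhs => rw [e2, add_smul, mul_comm, mul_smul, natCast_zsmul, card_nsmul_eq_zero']
      rw [smul_zero, zero_add]
  obtain ⟨L, hL⟩ := h1 Finset.univ
  obtain ⟨L', h2, h3⟩ := short_list g L.length L le_rfl
  refine ⟨fun i => L'.count i, ?_, ?_⟩
  · rw [← hL, ← h2]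
    simp only [natCast_zsmul]
    rw [Finset.sum_list_map_count]
    symm
    apply Finset.sum_subset (Finset.subset_univ _)
    intro x _ hx
    rw [List.mem_toFinset] at hx
    rw [List.count_eq_zero_of_not_mem hx, zero_smul]
  · refine lt_of_eq_of_lt ?_ h3
    rw [← Multiset.coe_card, ← Multiset.sum_count_eq_card (s := Finset.univ) (fun a _ => Finset.mem_univ a)]
    simp

/-- the cokernel of an integer matrix -/
lemma card_coker {κ : Type*} [Fintype κ] [DecidableEq κ] (D : Matrix κ κ ℤ) (hD : D.det ≠ 0) :
    Nat.card ((κ → ℤ) ⧸ (LinearMap.range D.mulVecLin)) = D.det.natAbs := by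
  have hinj : Function.Injective D.mulVecLin := Matrix.mulVec_injective_of_det_ne_zero hD
  let e := LinearEquiv.ofInjective D.mulVecLin hinj
  have h := Submodule.natAbs_det_equiv (LinearMap.range D.mulVecLin) e
  rw [← h]
  congr 1
  rw [← LinearMap.det_toLin' D]
  congr 1

end Pool.Agent.N86
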