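import Pool.Agent.N86.TyE

/-! Small integer solutions: the core statement. -/

set_option autoImplicit false

namespace Pool.Agent.N86

open Finset Matrix

theorem core {H Q : Type} [Fintype H] [DecidableEq H] (B : Q → H → ℤ) (τ : H → ℤ) (h1 : H)
    (hτ1 : τ h1 = 1) (hτ : ∀ q, ∑ h, B q h * τ h = 0) (w : H → ℕ) (hw : ∀ h, 1 ≤ w h)
    (hdet : ∀ (κ : Type) [Fintype κ] [DecidableEq κ] (a : κ → Q) (c : κ → H),
      Function.Injective c →
        |(Matrix.of fun i j => B (a i) (c j)).det| ≤ ((∏ j, w (c j) : ℕ) : ℤ)) :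
    ∃ t : H → ℤ, t h1 = 1 ∧ (∀ q, ∑ h, B q h * t h = 0) ∧
      ∀ h, |t h| * (w h : ℤ) ≤ ((∏ h, w h : ℕ) : ℤ) := by
  classical
  -- rows
  let rowq : Q → (H → ℚ) := fun q h => (B q h : ℚ)
  obtain ⟨κ, a, hainj, haspan, hali⟩ := exists_linearIndependent' ℚ rowq
  haveI : Finite κ := by
    have := hali.finite
    exact this
  haveI : Fintype κ := Fintype.ofFinite κ
  -- columns
  let col : {h : H // h ≠ h1} → (κ → ℚ) := fun h i => (B (a i) h : ℚ)
  have hcolspan : Submodule.span ℚ (Set.range col) = ⊤ := by
    by_contra hne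
    obtain ⟨f, hf0, hf⟩ := Submodule.exists_le_ker_of_lt_top _ (lt_top_iff_ne_top.mpr hne)
    set lam : κ → ℚ := fun i => f (Pi.single i 1) with hlam
    have hflam : ∀ x, f x = ∑ i, x i * lam i := by
      intro x
      have hx : x = ∑ h, x h • (Pi.single h (1 : ℚ) : κ → ℚ) := by
        funext j
        simp [Finset.sum_apply, Pi.single_apply]
      conv_lhs => rw [hx]
      rw [map_sum]
      simp only [map_smul, smul_eq_mul, hlam]
    have hx0 : ∑ i, lam i • rowq (a i) = 0 := by
      have hne1 : ∀ h, h ≠ h1 → (∑ i, lam i • rowq (a i)) h = 0 := by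
        intro h hh
        have : f (col ⟨h, hh⟩) = 0 := hf (Submodule.subset_span ⟨⟨h, hh⟩, rfl⟩)
        rw [hflam] at this
        rw [Finset.sum_apply]
        rw [← this]
        refine Finset.sum_congr rfl fun i _ => ?_
        simp only [Pi.smul_apply, smul_eq_mul, col, rowq]
        ring
      funext h
      by_cases hh : h = h1
      · subst hh
        have e1 : ∑ h', (∑ i, lam i • rowq (a i)) h' * (τ h' : ℚ) = 0 := by
          simp only [Finset.sum_apply, Pi.smul_apply, smul_eq_mul, Finset.sum_mul]
          rw [Finset.sum_comm]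
          refine Finset.sum_eq_zero fun i _ => ?_
          have := hτ (a i)
          have h2 : ∑ h', (B (a i) h' : ℚ) * (τ h' : ℚ) = 0 := by exact_mod_cast this
          simp only [rowq, mul_assoc]
          rw [← Finset.mul_sum, h2, mul_zero]
        rw [Finset.sum_eq_single h (fun b _ hb => by rw [hne1 b hb, zero_mul])
          (fun h => absurd (Finset.mem_univ _) h), hτ1] at e1
        simpa using e1
      · exact hne1 h hh
    have hlam0 : ∀ i, lam i = 0 := by
      have := Fintype.linearIndependent_iff.mp hali lam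
      exact this hx0
    apply hf0
    ext x
    simp only [LinearMap.comp_apply, LinearMap.zero_apply]
    rw [hflam]
    simp [hlam0]
  obtain ⟨κ', c0, hc0inj, hc0span, hc0li⟩ := exists_linearIndependent' ℚ col
  haveI : Finite κ' := by
    have := hc0li.finite
    exact this
  haveI : Fintype κ' := Fintype.ofFinite κ'
  let bas : Module.Basis κ' ℚ (κ → ℚ) := Module.Basis.mk hc0li (by rw [hc0span, hcolspan])
  have hcard : Fintype.card κ = Fintype.card κ' := by
    have h2 := Module.finrank_eq_card_basis bas
    rw [Module.finrank_fintype_fun_eq_card] at h2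
    exact h2
  let e : κ ≃ κ' := Fintype.equivOfCardEq hcard
  let c : κ → H := fun j => (c0 (e j)).1
  have hcinj : Function.Injective c := by
    intro i j hij
    exact e.injective (hc0inj (Subtype.ext hij))
  have hch1 : ∀ j, c j ≠ h1 := fun j => (c0 (e j)).2
  let D : Matrix κ κ ℤ := Matrix.of fun i j => B (a i) (c j)
  have hD : D.det ≠ 0 := by
    intro h0
    have h2 : ((D.map (Int.cast : ℤ → ℚ))ᵀ).det = 0 := by
      rw [Matrix.det_transpose]
      have := Int.cast_det (R := ℚ) D
      rw [h0] at this
      simpa using this.symm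
    have hli : LinearIndependent ℚ (fun j => (D.map (Int.cast : ℤ → ℚ))ᵀ j) := by
      have := hc0li.comp e e.injective
      exact this
    have h3 := Matrix.linearIndependent_rows_iff_isUnit.mp hli
    rw [Matrix.isUnit_iff_isUnit_det] at h3
    exact h3.ne_zero h2
  -- the group
  have hcardG := card_coker D hD
  set G := (κ → ℤ) ⧸ (LinearMap.range D.mulVecLin) with hG
  haveI : Finite G := Nat.finite_of_card_ne_zero (by
    rw [hcardG]; exact Int.natAbs_ne_zero.mpr hD)
  let NB := {h : H // h ≠ h1 ∧ h ∉ Set.range c}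
  let colz : H → (κ → ℤ) := fun h i => B (a i) h
  let g : NB → G := fun h => Submodule.Quotient.mk (colz h.1)
  obtain ⟨s, hs1, hs2⟩ := exists_short g (fun h => τ h.1)
  have hmem : (∑ h : NB, ((s h : ℤ) - τ h.1) • colz h.1) ∈ LinearMap.range D.mulVecLin := by
    rw [← Submodule.Quotient.mk_eq_zero]
    have e1 : (Submodule.Quotient.mk (∑ h : NB, ((s h : ℤ) - τ h.1) • colz h.1) : G) =
        ∑ h : NB, ((s h : ℤ) - τ h.1) • g h := by
      rw [← Submodule.mkQ_apply, map_sum]
      refine Finset.sum_congr rfl fun h _ => ?_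
      rw [map_smul]
      rfl
    rw [e1]
    simp only [sub_smul, Finset.sum_sub_distrib]
    rw [hs1, sub_self]
  obtain ⟨u, hu⟩ := hmem
  rw [Matrix.mulVecLin_apply] at hu
  let t : H → ℤ := fun h => τ h + (if hh : h ≠ h1 ∧ h ∉ Set.range c then (s ⟨h, hh⟩ : ℤ) - τ h else 0)
    - ∑ j, if c j = h then u j else 0
  have ht1 : t h1 = 1 := by
    simp only [t]
    rw [dif_neg (by simp), hτ1, Finset.sum_eq_zero (fun j _ => if_neg (hch1 j))]
    simp
  have htNB : ∀ h : NB, t h.1 = s h := by
    intro h
    simp only [t]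
    rw [dif_pos h.2, Finset.sum_eq_zero (fun j _ => if_neg (fun hj => h.2.2 ⟨j, hj⟩))]
    simp
  have htrow : ∀ i, ∑ h, B (a i) h * t h = 0 := by
    intro i
    simp only [t, mul_sub, mul_add, Finset.sum_sub_distrib, Finset.sum_add_distrib, hτ]
    have e1 : ∑ h, B (a i) h * (if hh : h ≠ h1 ∧ h ∉ Set.range c then (s ⟨h, hh⟩ : ℤ) - τ h else 0)
        = ∑ h : NB, ((s h : ℤ) - τ h.1) * B (a i) h.1 := by
      have : ∀ h, B (a i) h * (if hh : h ≠ h1 ∧ h ∉ Set.range c then (s ⟨h, hh⟩ : ℤ) - τ h else 0)
          = if hh : h ≠ h1 ∧ h ∉ Set.range c then ((s ⟨h, hh⟩ : ℤ) - τ h) * B (a i) h else 0 := by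
        intro h
        split_ifs with hh
        · ring
        · ring
      simp only [this]
      rw [Finset.sum_dite]
      simp only [Finset.sum_const_zero, add_zero]
      refine Finset.sum_bij (fun x _ => (⟨x.1, by have := x.2; simpa using this⟩ : NB))
        ?_ ?_ ?_ ?_
      · intro x _; exact Finset.mem_univ _
      · intro x _ y _ hxy
        exact Subtype.ext (Subtype.mk.inj hxy)
      · intro x _
        exact ⟨⟨x.1, by have := x.2; simpa using this⟩, by simp, rfl⟩
      · intro x _; rfl
    have e2 : ∑ h, B (a i) h * (∑ j, if c j = h then u j else 0) = (D.mulVec u) i := by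
      simp only [Finset.mul_sum]
      rw [Finset.sum_comm]
      simp only [Matrix.mulVec, dotProduct, D, Matrix.of_apply]
      refine Finset.sum_congr rfl fun j _ => ?_
      simp
    have e3 := congrFun hu i
    rw [e1, e2, e3, Finset.sum_apply]
    simp only [Pi.smul_apply, smul_eq_mul, colz]
    ring
  have htall : ∀ q, ∑ h, B q h * t h = 0 := by
    intro q
    have hdot : ∀ x ∈ Submodule.span ℚ (Set.range rowq), ∑ h, x h * (t h : ℚ) = 0 := by
      intro x hx
      rw [← haspan] at hx
      induction hx using Submodule.span_induction with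
      | mem x hx =>
        obtain ⟨i, rfl⟩ := hx
        have := htrow i
        simp only [Function.comp, rowq]
        exact_mod_cast this
      | zero => simp
      | add x y _ _ hx hy =>
        simp only [Pi.add_apply, add_mul, Finset.sum_add_distrib, hx, hy, add_zero]
      | smul r x _ hx =>
        simp only [Pi.smul_apply, smul_eq_mul, mul_assoc]
        rw [← Finset.mul_sum, hx, mul_zero]
    have := hdot (rowq q) (Submodule.subset_span ⟨q, rfl⟩)
    simp only [rowq] at this
    exact_mod_cast this
  -- bounds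
  have hd : D.det.natAbs ≤ ∏ j, w (c j) := by
    have := hdet κ a c hcinj
    have h2 : ((D.det.natAbs : ℕ) : ℤ) ≤ ((∏ j, w (c j) : ℕ) : ℤ) := by
      rw [Int.natCast_natAbs]; exact this
    exact_mod_cast h2
  have hprodpos : 0 < ∏ h, w h := Finset.prod_pos fun h _ => hw h
  have hW : ∀ h, h ∉ Set.range c → w h * ∏ j, w (c j) ≤ ∏ h, w h := by
    intro h hh
    apply Nat.le_of_dvd hprodpos
    have e1 : w h * ∏ j, w (c j) = ∏ x ∈ insert h (Finset.univ.image c), w x := by
      rw [Finset.prod_insert (by
        rw [Finset.mem_image]; rintro ⟨j, _, hj⟩; exact hh ⟨j, hj⟩),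
        Finset.prod_image (fun i _ j _ hij => hcinj hij)]
    rw [e1]
    exact Finset.prod_dvd_prod_of_subset _ _ _ (Finset.subset_univ _)
  have hsum : ∑ h : NB, s h + 1 ≤ D.det.natAbs := by rw [hcardG] at hs2; omega
  refine ⟨t, ht1, htall, fun h => ?_⟩
  by_cases hh1 : h = h1
  · subst hh1
    rw [ht1, abs_one, one_mul]
    exact_mod_cast Nat.le_of_dvd hprodpos (Finset.dvd_prod_of_mem w (Finset.mem_univ h))
  by_cases hr : h ∈ Set.range c
  · obtain ⟨j0, rfl⟩ := hr
    -- Cramer
    have hcr : D.cramer (D.mulVec (fun j => t (c j))) = D.det • (fun j => t (c j)) := by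
      rw [Matrix.cramer_eq_adjugate_mulVec, Matrix.mulVec_mulVec, Matrix.adjugate_mul,
        Matrix.smul_mulVec, Matrix.one_mulVec]
    let OB := {h : H // h ∉ Set.range c}
    have hb : D.mulVec (fun j => t (c j)) = - ∑ h : OB, t h.1 • colz h.1 := by
      funext i
      have h2 := htrow i
      have e1 : ∑ h, B (a i) h * t h = ∑ j, B (a i) (c j) * t (c j) + ∑ h : OB, B (a i) h.1 * t h.1 := by
        rw [← Finset.sum_filter_add_sum_filter_not Finset.univ (fun h => h ∈ Set.range c)]
        congr 1
        · have : Finset.univ.filter (fun h => h ∈ Set.range c) = Finset.univ.image c := by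
            ext x; simp
          rw [this, Finset.sum_image (fun i _ j _ hij => hcinj hij)]
        · rw [Finset.sum_subtype]
          intro x; simp
      rw [e1] at h2
      simp only [Matrix.mulVec, dotProduct, D, Matrix.of_apply, Pi.neg_apply, Finset.sum_apply,
        Pi.smul_apply, smul_eq_mul, colz]
      have e2 : ∑ h : OB, t h.1 * B (a i) h.1 = ∑ h : OB, B (a i) h.1 * t h.1 :=
        Finset.sum_congr rfl fun _ _ => mul_comm _ _
      rw [e2]
      linarith
    rw [hb, map_neg, map_sum] at hcr
    have h3 := congrFun hcr j0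
    simp only [Pi.neg_apply, Finset.sum_apply, Pi.smul_apply, smul_eq_mul, map_smul] at h3
    have hbd : ∀ h : OB, |D.cramer (colz h.1) j0| * (w (c j0) : ℤ) ≤ ((∏ h, w h : ℕ) : ℤ) := by
      intro h
      rw [Matrix.cramer_apply]
      have e1 : D.updateCol j0 (colz h.1) =
          Matrix.of fun i j => B (a i) (Function.update c j0 h.1 j) := by
        ext i j
        by_cases hj : j = j0
        · subst hj; simp [colz]
        · rw [Matrix.updateCol_ne hj]; simp [D, hj]
      rw [e1]
      have hinj : Function.Injective (Function.update c j0 h.1) := by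
        intro i j hij
        by_cases hi : i = j0
        · by_cases hj : j = j0
          · rw [hi, hj]
          · rw [hi, Function.update_self, Function.update_of_ne hj] at hij
            exact absurd ⟨j, hij.symm⟩ h.2
        · by_cases hj : j = j0
          · rw [hj, Function.update_self, Function.update_of_ne hi] at hij
            exact absurd ⟨i, hij⟩ h.2
          · rw [Function.update_of_ne hi, Function.update_of_ne hj] at hij
            exact hcinj hij
      have h4 := hdet κ a _ hinj
      have e2 : (∏ j, w (Function.update c j0 h.1 j)) * w (c j0) = w h.1 * ∏ j, w (c j) := by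
        rw [← Finset.mul_prod_erase Finset.univ (fun j => w (Function.update c j0 h.1 j))
          (Finset.mem_univ j0), ← Finset.mul_prod_erase Finset.univ (fun j => w (c j))
          (Finset.mem_univ j0)]
        simp only [Function.update_self]
        have e3 : ∏ x ∈ Finset.univ.erase j0, w (Function.update c j0 h.1 x) =
            ∏ x ∈ Finset.univ.erase j0, w (c x) := by
          refine Finset.prod_congr rfl fun x hx => ?_
          rw [Function.update_of_ne (Finset.ne_of_mem_erase hx)]
        rw [e3]; ring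
      calc _ ≤ ((∏ j, w (Function.update c j0 h.1 j) : ℕ) : ℤ) * (w (c j0) : ℤ) :=
            mul_le_mul_of_nonneg_right h4 (by positivity)
        _ = (((∏ j, w (Function.update c j0 h.1 j)) * w (c j0) : ℕ) : ℤ) := by push_cast; ring
        _ ≤ _ := by rw [e2]; exact_mod_cast hW h.1 h.2
    have hsumt : ∑ h : OB, |t h.1| ≤ (D.det.natAbs : ℤ) := by
      have e1 : ∑ h : OB, |t h.1| = |t h1| + ∑ h : NB, |t h.1| := by
        have hh1' : h1 ∉ Set.range c := by rintro ⟨j, hj⟩; exact hch1 j hj
        rw [← Finset.add_sum_erase Finset.univ (fun h : OB => |t h.1|)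
          (Finset.mem_univ (⟨h1, hh1'⟩ : OB))]
        congr 1
        refine Finset.sum_bij' (fun (x : OB) (hx : x ∈ Finset.univ.erase (⟨h1, hh1'⟩ : OB)) =>
            (⟨x.1, fun h => (Finset.ne_of_mem_erase hx) (Subtype.ext h), x.2⟩ : NB))
          (fun (x : NB) _ => (⟨x.1, x.2.2⟩ : OB)) ?_ ?_ ?_ ?_ ?_
        · intro x _; exact Finset.mem_univ _
        · intro x _
          rw [Finset.mem_erase]
          exact ⟨fun h => x.2.1 (congrArg Subtype.val h), Finset.mem_univ _⟩
        · intro x _; rfl
        · intro x _; rfl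
        · intro x _; rfl
      rw [e1, ht1]
      have e2 : ∑ h : NB, |t h.1| = ((∑ h : NB, s h : ℕ) : ℤ) := by
        push_cast
        refine Finset.sum_congr rfl fun h _ => ?_
        rw [htNB h]
        simp
      rw [e2, abs_one]
      have : ((∑ h : NB, s h + 1 : ℕ) : ℤ) ≤ (D.det.natAbs : ℤ) := by exact_mod_cast hsum
      push_cast at this ⊢
      linarith
    have h5 : |D.det| * (|t (c j0)| * (w (c j0) : ℤ)) ≤ |D.det| * ((∏ h, w h : ℕ) : ℤ) := by
      calc |D.det| * (|t (c j0)| * (w (c j0) : ℤ)) = |D.det * t (c j0)| * (w (c j0) : ℤ) := by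
            rw [abs_mul]; ring
        _ = |∑ h : OB, t h.1 * D.cramer (colz h.1) j0| * (w (c j0) : ℤ) := by
            rw [← h3, abs_neg]
        _ ≤ (∑ h : OB, |t h.1 * D.cramer (colz h.1) j0|) * (w (c j0) : ℤ) :=
            mul_le_mul_of_nonneg_right (Finset.abs_sum_le_sum_abs _ _) (by positivity)
        _ = ∑ h : OB, |t h.1| * (|D.cramer (colz h.1) j0| * (w (c j0) : ℤ)) := by
            rw [Finset.sum_mul]
            refine Finset.sum_congr rfl fun h _ => ?_
            rw [abs_mul]; ring
        _ ≤ ∑ h : OB, |t h.1| * ((∏ h, w h : ℕ) : ℤ) :=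
            Finset.sum_le_sum fun h _ => mul_le_mul_of_nonneg_left (hbd h) (abs_nonneg _)
        _ = (∑ h : OB, |t h.1|) * ((∏ h, w h : ℕ) : ℤ) := by rw [Finset.sum_mul]
        _ ≤ (D.det.natAbs : ℤ) * ((∏ h, w h : ℕ) : ℤ) :=
            mul_le_mul_of_nonneg_right hsumt (by positivity)
        _ = _ := by rw [Int.natCast_natAbs]
    exact le_of_mul_le_mul_left h5 (abs_pos.mpr hD)
  · have h2 := htNB ⟨h, hh1, hr⟩
    simp only at h2
    rw [h2, Nat.abs_cast]
    have h3 : s ⟨h, hh1, hr⟩ ≤ ∏ j, w (c j) := by
      have := Finset.single_le_sum (f := s) (fun i _ => Nat.zero_le _)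
        (Finset.mem_univ (⟨h, hh1, hr⟩ : NB))
      omega
    have h4 : s ⟨h, hh1, hr⟩ * w h ≤ ∏ h, w h :=
      calc s ⟨h, hh1, hr⟩ * w h ≤ (∏ j, w (c j)) * w h := Nat.mul_le_mul_right _ h3
        _ = w h * ∏ j, w (c j) := mul_comm _ _
        _ ≤ _ := hW h hr
    exact_mod_cast h4

end Pool.Agent.N86
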