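import Pool.Agent.N86.TyF

/-! Small integer solutions of systems `x_i = 1`, `x_i + x_j = x_k`. -/

set_option autoImplicit false

namespace Pool.Agent.N86

open Finset Matrix

theorem det_bound2 (V : Finset ℚ) {κ : Type} [Fintype κ] [DecidableEq κ] (a : κ → QQ V)
    (c : κ → HH V) (hc : Function.Injective c) :
    |(Matrix.of fun i j => Bz V (a i) (c j)).det| ≤
      ((∏ j, 2 ^ (#{v ∈ V | pp V v = c j}) : ℕ) : ℤ) := by
  classical
  set N : Matrix κ κ ℤ := Matrix.of fun i j => Bz V (a i) (c j) with hN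
  let ν : HH V → ℝ := fun h => ∑ v ∈ V with pp V v = h, (4 : ℝ) ^ (kk V v)
  have hνpos : ∀ h, 0 < ν h := by
    intro h'
    obtain ⟨v, hv, hv2⟩ := (mem_image.mp h'.2)
    refine Finset.sum_pos (fun _ _ => by positivity) ⟨v, ?_⟩
    rw [mem_filter]; exact ⟨hv, hv2⟩
  let A : Matrix κ κ ℝ := of fun i j => (Real.sqrt (ν (c j)))⁻¹ * (N.map (Int.cast : ℤ → ℝ)) i j
  have hA : A.det = (∏ j, (Real.sqrt (ν (c j)))⁻¹) * (N.det : ℝ) := by
    have h1 : A.det = (∏ j, (Real.sqrt (ν (c j)))⁻¹) * (N.map (Int.cast : ℤ → ℝ)).det :=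
      Matrix.det_mul_row _ _
    rw [h1]
    congr 1
    exact (Int.cast_det N).symm
  have hH := hadamard_sq A
  have hrow : ∀ i, ∑ j, A i j ^ 2 ≤ 3 := by
    intro i
    have h1 : ∀ h : HH V, (ν h)⁻¹ * ((Bz V (a i) h : ℤ) : ℝ) ^ 2 ≤
        ((∑ v ∈ V with pp V v = h, (rr (a i) v) ^ 2 : ℤ) : ℝ) := by
      intro h
      rw [Bz]
      have cs := Finset.sum_mul_sq_le_sq_mul_sq ({v ∈ V | pp V v = (h : ℚ)})
        (fun v => ((rr (a i) v : ℤ) : ℝ)) (fun v => (2 : ℝ) ^ (kk V v))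
      have e2 : ∑ v ∈ V with pp V v = (h : ℚ), ((2 : ℝ) ^ (kk V v)) ^ 2 = ν h := by
        refine Finset.sum_congr rfl fun v _ => ?_
        rw [← pow_mul, mul_comm, pow_mul]; norm_num
      rw [e2] at cs
      rw [inv_mul_le_iff₀ (hνpos h), mul_comm]
      push_cast
      exact cs
    have e1 : ∀ j, A i j ^ 2 = (ν (c j))⁻¹ * ((Bz V (a i) (c j) : ℤ) : ℝ) ^ 2 := by
      intro j
      simp only [A, N, Matrix.of_apply, Matrix.map_apply]
      rw [mul_pow, inv_pow, Real.sq_sqrt (hνpos _).le]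
    calc ∑ j, A i j ^ 2 = ∑ j, (fun h : HH V => (ν h)⁻¹ * ((Bz V (a i) h : ℤ) : ℝ) ^ 2) (c j) :=
          Finset.sum_congr rfl fun j _ => e1 j
      _ = ∑ h ∈ Finset.univ.image c, (ν h)⁻¹ * ((Bz V (a i) h : ℤ) : ℝ) ^ 2 := by
          rw [Finset.sum_image (fun i _ j _ hij => hc hij)]
      _ ≤ ∑ h : HH V, (ν h)⁻¹ * ((Bz V (a i) h : ℤ) : ℝ) ^ 2 :=
          Finset.sum_le_sum_of_subset_of_nonneg (Finset.subset_univ _) fun h _ _ => by
            have := hνpos h; positivity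
      _ ≤ ∑ h : HH V, ((∑ v ∈ V with pp V v = (h : ℚ), (rr (a i) v) ^ 2 : ℤ) : ℝ) :=
          Finset.sum_le_sum fun h _ => h1 h
      _ = ((∑ h : HH V, ∑ v ∈ V with pp V v = (h : ℚ), (rr (a i) v) ^ 2 : ℤ) : ℝ) := by
          push_cast; rfl
      _ = ((∑ v ∈ V, (rr (a i) v) ^ 2 : ℤ) : ℝ) := by
          congr 1
          rw [Finset.sum_coe_sort (HH V) (fun h => ∑ v ∈ V with pp V v = h, (rr (a i) v) ^ 2)]
          exact Finset.sum_fiberwise_of_maps_to (fun v hv => pp_mem_HH V hv) _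
      _ ≤ 3 := by exact_mod_cast rr_sq V _ (a i).2
  have hprod : ∏ i, ∑ j, A i j ^ 2 ≤ 3 ^ (Fintype.card κ) := by
    have : ∏ i, ∑ j, A i j ^ 2 ≤ ∏ _i : κ, (3 : ℝ) :=
      Finset.prod_le_prod (fun i _ => Finset.sum_nonneg fun j _ => sq_nonneg _) fun i _ => hrow i
    refine this.trans (le_of_eq ?_)
    rw [Finset.prod_const, Finset.card_univ]
  have hprodν : 0 < ∏ j, ν (c j) := Finset.prod_pos fun h _ => hνpos _
  have h1 : A.det ^ 2 = (∏ j, ν (c j))⁻¹ * ((N.det : ℤ) : ℝ) ^ 2 := by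
    rw [hA, mul_pow, ← Finset.prod_pow]
    congr 1
    rw [← Finset.prod_inv_distrib]
    refine Finset.prod_congr rfl fun h _ => ?_
    rw [inv_pow, Real.sq_sqrt (hνpos _).le]
  rw [h1] at hH
  have h2 := hH.trans hprod
  rw [inv_mul_le_iff₀ hprodν] at h2
  have h3 : ((N.det : ℤ) : ℝ) ^ 2 ≤ ∏ j, (3 * ν (c j)) := by
    refine h2.trans (le_of_eq ?_)
    rw [Finset.prod_mul_distrib, Finset.prod_const, Finset.card_univ]; ring
  have h4 : ∏ j, (3 * ν (c j)) ≤ ∏ j, (4 : ℝ) ^ (#{v ∈ V | pp V v = (c j : ℚ)}) := by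
    refine Finset.prod_le_prod (fun j _ => by have := hνpos (c j); positivity) fun j _ => ?_
    have := fiber_sum V (c j).2
    simp only [ν]
    rw [this]; linarith
  have h5 : (N.det) ^ 2 ≤ (((∏ j, 2 ^ (#{v ∈ V | pp V v = c j}) : ℕ) : ℤ)) ^ 2 := by
    have e1 : ∏ j, (4 : ℝ) ^ (#{v ∈ V | pp V v = (c j : ℚ)}) =
        (((∏ j, 2 ^ (#{v ∈ V | pp V v = c j}) : ℕ) : ℝ)) ^ 2 := by
      push_cast
      rw [← Finset.prod_pow]
      refine Finset.prod_congr rfl fun j _ => ?_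
      rw [← pow_mul, mul_comm, pow_mul]; norm_num
    rw [e1] at h4
    have := h3.trans h4
    exact_mod_cast this
  exact abs_le_of_sq_le_sq h5 (by positivity)

theorem int_bound (V : Finset ℚ) (hV : ∀ v ∈ V, ((v.num : ℤ) : ℚ) = v) (h1 : (1 : ℚ) ∈ V) :
    ∃ g : ℚ → ℤ, g 1 = 1 ∧ (∀ a ∈ V, ∀ b ∈ V, a + b ∈ V → g (a + b) = g a + g b) ∧
      ∀ v ∈ V, |g v| ≤ 2 ^ (#V - 1) := by
  classical
  have hk1 : kk V 1 = 0 := by
    apply kk_unique V one_ne_zero
    · intro h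
      have := hV _ h
      norm_num at this
    · intro i hi; omega
  have hp1 : pp V 1 = 1 := by simp [pp, hk1]
  have hh1 : (1 : ℚ) ∈ HH V := by
    have := pp_mem_HH V h1
    rwa [hp1] at this
  let τ : HH V → ℤ := fun h => (h : ℚ).num
  have hτ : ∀ h : HH V, ((τ h : ℤ) : ℚ) = h := fun h => hV _ (HH_mem V h.2)
  obtain ⟨t, ht1, ht, htb⟩ := core (H := HH V) (Q := QQ V) (fun q h => Bz V q h) τ ⟨1, hh1⟩
    (by simp [τ]) (by
      intro q
      have := row_tau V q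
      simp only [dot, row, tau] at this
      have e : ((∑ h : HH V, Bz V q h * τ h : ℤ) : ℚ) = 0 := by
        push_cast
        rw [← this]
        exact Finset.sum_congr rfl fun h _ => by rw [hτ h]
      exact_mod_cast e)
    (fun h => 2 ^ (#{v ∈ V | pp V v = h})) (fun h => Nat.one_le_two_pow)
    (fun κ _ _ a c hc => det_bound2 V a c hc)
  let g : ℚ → ℤ := fun v => 2 ^ (kk V v) * (if hx : pp V v ∈ HH V then t ⟨pp V v, hx⟩ else 0)
  have hgext : ∀ v, ((g v : ℤ) : ℚ) = ext V (fun h => (t h : ℚ)) v := by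
    intro v
    simp only [g, ext]
    split_ifs <;> push_cast <;> ring
  refine ⟨g, ?_, ?_, ?_⟩
  · simp only [g]
    rw [hk1, dif_pos (by rw [hp1]; exact hh1)]
    simp only [pow_zero, one_mul, hp1, ht1]
  · intro a ha b hb hab
    by_cases h : a = b ∧ a ≠ 0
    · obtain ⟨rfl, h0⟩ := h
      simp only [g]
      rw [pp_double V ha h0, kk_double V ha h0, pow_succ]
      ring
    · have hq : (a, b) ∈ QQ V := by
        simp only [QQ, mem_filter, mem_product]
        exact ⟨⟨ha, hb⟩, hab, h⟩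
      have h2 := row_dot V ⟨(a, b), hq⟩ (fun h => (t h : ℚ))
      have h3 := ht ⟨(a, b), hq⟩
      have h4 : dot V (row V ⟨(a, b), hq⟩) (fun h => (t h : ℚ)) = 0 := by
        simp only [dot, row]
        exact_mod_cast h3
      rw [h4] at h2
      simp only at h2
      rw [← hgext, ← hgext, ← hgext] at h2
      have h5 : (g (a + b) : ℚ) = g a + g b := by linarith
      exact_mod_cast h5
  · intro v hv
    have hcard : 1 ≤ #V := Finset.card_pos.mpr ⟨1, h1⟩
    have h2 := htb ⟨pp V v, pp_mem_HH V hv⟩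
    simp only at h2
    have hlt := fiber_lt V hv
    have hprod : ∏ h : HH V, 2 ^ (#{v ∈ V | pp V v = (h : ℚ)}) = 2 ^ (#V) := by
      rw [Finset.prod_pow_eq_pow_sum]
      congr 1
      rw [Finset.sum_coe_sort (HH V) (fun h => #{v ∈ V | pp V v = h})]
      exact (Finset.card_eq_sum_card_fiberwise (fun v hv => pp_mem_HH V hv)).symm
    rw [hprod] at h2
    push_cast at h2
    simp only [g]
    rw [dif_pos (pp_mem_HH V hv), abs_mul, abs_of_nonneg (by positivity : (0 : ℤ) ≤ 2 ^ kk V v)]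
    set ℓ := #{w ∈ V | pp V w = pp V v} with hℓ
    set T := t ⟨pp V v, pp_mem_HH V hv⟩ with hT
    have h3 : 2 * (2 ^ kk V v * |T|) ≤ (2 : ℤ) ^ (#V) := by
      calc 2 * (2 ^ kk V v * |T|) = 2 ^ (kk V v + 1) * |T| := by rw [pow_succ]; ring
        _ ≤ 2 ^ ℓ * |T| := by
            apply mul_le_mul_of_nonneg_right _ (abs_nonneg _)
            exact pow_le_pow_right₀ (by norm_num) (by omega)
        _ = |T| * 2 ^ ℓ := mul_comm _ _
        _ ≤ 2 ^ (#V) := h2
    have h5 : (2 : ℤ) ^ (#V) = 2 * 2 ^ (#V - 1) := by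
      rw [← pow_succ', Nat.sub_add_cancel hcard]
    rw [h5] at h3
    linarith

/-- the integer version -/
theorem int_main (n : ℕ) (x : Fin n → ℤ) :
    ∃ y : Fin n → ℤ, (∀ i, |y i| ≤ 2 ^ (n - 1)) ∧ (∀ i, x i = 1 → y i = 1) ∧
      ∀ i j k, x k = x i + x j → y k = y i + y j := by
  classical
  set V : Finset ℚ := Finset.univ.image (fun i => (x i : ℚ)) with hVdef
  have hmem : ∀ i, (x i : ℚ) ∈ V := fun i => mem_image_of_mem _ (mem_univ i)
  by_cases h1 : (1 : ℚ) ∈ V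
  · have hcard : #V ≤ n := by
      have := card_image_le (s := (Finset.univ : Finset (Fin n))) (f := fun i => (x i : ℚ))
      simpa using this
    obtain ⟨g, hg1, hg, hgb⟩ := int_bound V (by
      intro v hv
      obtain ⟨i, _, rfl⟩ := mem_image.mp hv
      simp) h1
    refine ⟨fun i => g (x i), fun i => ?_, fun i hi => ?_, fun i j k h => ?_⟩
    · exact (hgb _ (hmem i)).trans (pow_le_pow_right₀ (by norm_num) (by omega))
    · simp only
      rw [hi]; simpa using hg1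
    · simp only
      have e : (x k : ℚ) = x i + x j := by rw [h]; push_cast; rfl
      rw [e]
      exact hg _ (hmem i) _ (hmem j) (e ▸ hmem k)
  · refine ⟨fun _ => 0, fun i => by simp, fun i hi => ?_, fun i j k _ => by simp⟩
    exfalso
    apply h1
    have := hmem i
    rw [hi] at this
    simpa using this

end Pool.Agent.N86
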