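import Mathlib
import Pool.Agent.Helper189.FreeRep

/-! Words `w(x, y)` that are associative operations on free groups. -/

set_option autoImplicit false

namespace Pool.Agent.N86.WordOp

open scoped LaurentPolynomial Polynomial

abbrev F2 : Type := FreeGroup (Fin 2)

/-- the value `w(x, y)` -/
def val {G : Type*} [Group G] (w : F2) (x y : G) : G := FreeGroup.lift ![x, y] w

section basic
variable {G H : Type*} [Group G] [Group H]

lemma map_val (φ : G →* H) (w : F2) (x y : G) : φ (val w x y) = val w (φ x) (φ y) := by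
  have : φ.comp (FreeGroup.lift ![x, y]) = FreeGroup.lift ![φ x, φ y] := by
    ext i
    fin_cases i <;> simp
  exact DFunLike.congr_fun this w

lemma val_one (x y : G) : val 1 x y = 1 := map_one _
lemma val_mul (w v : F2) (x y : G) : val (w * v) x y = val w x y * val v x y := map_mul _ _ _
lemma val_inv (w : F2) (x y : G) : val w⁻¹ x y = (val w x y)⁻¹ := map_inv _ _
lemma val_of0 (x y : G) : val (FreeGroup.of 0) x y = x := by simp [val]
lemma val_of1 (x y : G) : val (FreeGroup.of 1) x y = y := by simp [val]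

/-- induction principle -/
lemma f2_induction {P : F2 → Prop} (h1 : P 1) (h2 : P (FreeGroup.of 0)) (h3 : P (FreeGroup.of 1))
    (h4 : ∀ x, P x → P x⁻¹) (h5 : ∀ x y, P x → P y → P (x * y)) (w : F2) : P w := by
  induction w using FreeGroup.induction_on with
  | C1 => exact h1
  | of i => fin_cases i; exacts [h2, h3]
  | inv_of i h => exact h4 _ h
  | mul x y hx hy => exact h5 x y hx hy

end basic

/-- the affine group of a ring -/
@[ext] structure Af (R : Type*) [Ring R] where
  g : Rˣ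
  d : R

namespace Af
variable {R S : Type*} [Ring R] [Ring S]

instance : Mul (Af R) := ⟨fun x y => ⟨x.g * y.g, x.d + x.g * y.d⟩⟩
instance : One (Af R) := ⟨⟨1, 0⟩⟩
instance : Inv (Af R) := ⟨fun x => ⟨x.g⁻¹, -(((x.g⁻¹ : Rˣ) : R) * x.d)⟩⟩

@[simp] lemma mul_g (x y : Af R) : (x * y).g = x.g * y.g := rfl
@[simp] lemma mul_d (x y : Af R) : (x * y).d = x.d + x.g * y.d := rfl
@[simp] lemma one_g : (1 : Af R).g = 1 := rfl
@[simp] lemma one_d : (1 : Af R).d = 0 := rfl
@[simp] lemma inv_g (x : Af R) : (x⁻¹).g = x.g⁻¹ := rfl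
@[simp] lemma inv_d (x : Af R) : (x⁻¹).d = -(((x.g⁻¹ : Rˣ) : R) * x.d) := rfl

instance : Group (Af R) := Group.ofLeftAxioms
  (by intro x y z; ext <;> simp [mul_assoc, mul_add, add_assoc])
  (by intro x; ext <;> simp)
  (by intro x; ext <;> simp)

/-- the linear part -/
def proj : Af R →* Rˣ where
  toFun x := x.g
  map_one' := rfl
  map_mul' _ _ := rfl

/-- right multiplication -/
def rmul (s : R) : Af R →* Af R where
  toFun x := ⟨x.g, x.d * s⟩
  map_one' := by ext <;> simp
  map_mul' x y := by ext <;> simp [add_mul, mul_assoc]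

/-- functoriality -/
def map (φ : R →+* S) : Af R →* Af S where
  toFun x := ⟨Units.map φ.toMonoidHom x.g, φ x.d⟩
  map_one' := by ext <;> simp
  map_mul' x y := by ext <;> simp

/-- the section -/
def sec : Rˣ →* Af R where
  toFun g := ⟨g, 0⟩
  map_one' := rfl
  map_mul' x y := by ext <;> simp

/-- the principal section -/
def prin : Rˣ →* Af R where
  toFun g := ⟨g, (g : R) - 1⟩
  map_one' := by ext <;> simp
  map_mul' x y := by
    ext
    · rfl
    · simp [mul_sub]

end Af

section deriv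
variable {R : Type*} [Ring R]

lemma val_g (w : F2) (x y : Rˣ) (p q : R) : (val w (⟨x, p⟩ : Af R) ⟨y, q⟩).g = val w x y :=
  map_val Af.proj w _ _

/-- linearity -/
lemma val_d (w : F2) (x y : Rˣ) (p q : R) : (val w (⟨x, p⟩ : Af R) ⟨y, q⟩).d =
    (val w (⟨x, 1⟩ : Af R) ⟨y, 0⟩).d * p + (val w (⟨x, 0⟩ : Af R) ⟨y, 1⟩).d * q := by
  induction w using f2_induction with
  | h1 => simp [val_one]
  | h2 => simp [val_of0]
  | h3 => simp [val_of1]
  | h4 w h =>
    rw [val_inv, val_inv, val_inv, Af.inv_d, Af.inv_d, Af.inv_d, h, val_g, val_g, val_g]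
    simp only [mul_add, neg_add, neg_mul, mul_assoc]
  | h5 v w h h' =>
    rw [val_mul, val_mul, val_mul, Af.mul_d, Af.mul_d, Af.mul_d, h, h', val_g, val_g, val_g]
    simp only [mul_add, add_mul, mul_assoc]
    abel

end deriv

/-- evaluation of Laurent polynomials at a unit of a ring -/
noncomputable def ev {S : Type*} [Ring S] (u : Sˣ) : ℤ[T;T⁻¹] →ₐ[ℤ] S :=
  AddMonoidAlgebra.lift ℤ S ℤ ((Units.coeHom S).comp (zpowersHom Sˣ u))

lemma ev_T {S : Type*} [Ring S] (u : Sˣ) (n : ℤ) : ev u (LaurentPolynomial.T n) = ((u ^ n : Sˣ) : S) := by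
  unfold ev LaurentPolynomial.T
  rw [AddMonoidAlgebra.lift_single]
  simp

/-- the unit `T` -/
noncomputable def uT : (ℤ[T;T⁻¹])ˣ where
  val := LaurentPolynomial.T 1
  inv := LaurentPolynomial.T (-1)
  val_inv := by rw [← LaurentPolynomial.T_add]; simp
  inv_val := by rw [← LaurentPolynomial.T_add]; simp

/-- the one variable derivative of `w` -/
noncomputable def kk (w : F2) : ℤ[T;T⁻¹] := (val w (⟨uT, 0⟩ : Af (ℤ[T;T⁻¹])) ⟨1, 1⟩).d

lemma ev_kk {S : Type*} [Ring S] (u : Sˣ) (w : F2) :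
    ev u (kk w) = (val w (⟨u, 0⟩ : Af S) ⟨1, 1⟩).d := by
  have h := map_val (Af.map (ev u).toRingHom) w (⟨uT, 0⟩ : Af (ℤ[T;T⁻¹])) ⟨1, 1⟩
  have h1 : Af.map (ev u).toRingHom (⟨uT, 0⟩ : Af (ℤ[T;T⁻¹])) = ⟨u, 0⟩ := by
    ext
    · change ev u (LaurentPolynomial.T 1) = _
      rw [ev_T, zpow_one]
    · exact map_zero (ev u)
  have h2 : Af.map (ev u).toRingHom (⟨1, 1⟩ : Af (ℤ[T;T⁻¹])) = ⟨1, 1⟩ := by
    ext
    · change ev u 1 = _
      rw [map_one]; rfl
    · exact map_one (ev u)
  rw [h1, h2] at h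
  exact congrArg Af.d h

/-- identities satisfied by the operation -/
structure Good (w : F2) : Prop where
  p : ∀ (G : Type) [Group G] (x : G), val w x 1 = x
  q : ∀ (G : Type) [Group G] (x : G), val w 1 x = x
  assoc : ∀ (G : Type) [Group G] (x y z : G), val w (val w x y) z = val w x (val w y z)

lemma val_comm {G : Type*} [CommGroup G] (w : F2) (x y : G) : val w x y = val w x 1 * val w 1 y := by
  induction w using f2_induction with
  | h1 => simp [val_one]
  | h2 => simp [val_of0]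
  | h3 => simp [val_of1]
  | h4 w h => rw [val_inv, val_inv, val_inv, h, mul_inv]
  | h5 v w h h' => rw [val_mul, val_mul, val_mul, h, h', mul_mul_mul_comm]

namespace Good
variable {w : F2} (hw : Good w)
include hw

lemma comm_val {G : Type} [CommGroup G] (x y : G) : val w x y = x * y := by
  rw [val_comm, hw.p, hw.q]

lemma e1 {S : Type} [Ring S] (A B : Sˣ) : ev (val w A B) (kk w) =
    (val w (⟨A, 0⟩ : Af S) ⟨B, 1⟩).d * ev B (kk w) := by
  have h := congrArg Af.d (hw.assoc (Af S) ⟨A, 0⟩ ⟨B, 0⟩ ⟨1, 1⟩)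
  have h1 : val w (⟨A, 0⟩ : Af S) ⟨B, 0⟩ = ⟨val w A B, 0⟩ := (map_val Af.sec w A B).symm
  have h2 : val w (⟨B, 0⟩ : Af S) ⟨1, 1⟩ = ⟨B, ev B (kk w)⟩ := by
    ext
    · rw [val_g, hw.p]
    · rw [ev_kk]
  rw [h1, h2, ← ev_kk, val_d, mul_zero, zero_add] at h
  exact h

lemma ev_one {S : Type} [Ring S] : ev (1 : Sˣ) (kk w) = 1 := by
  rw [ev_kk]
  have h := hw.q (Af S) ⟨1, 1⟩
  have h1 : (1 : Af S) = ⟨1, 0⟩ := rfl
  rw [h1] at h
  rw [h]

lemma no_root (z : ℂˣ) : ev z (kk w) ≠ 0 := by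
  intro h
  have h1 := hw.e1 z⁻¹ z
  rw [h, mul_zero, hw.comm_val, inv_mul_cancel, hw.ev_one] at h1
  exact one_ne_zero h1

end Good

lemma monomial_of (k : ℤ[T;T⁻¹]) (h0 : ∀ z : ℂˣ, ev z k ≠ 0) (h1 : ev (1 : ℤˣ) k = 1) :
    ∃ l : ℤ, k = LaurentPolynomial.T l := by
  obtain ⟨n, f, hf⟩ := LaurentPolynomial.exists_T_pow k
  have hev : ∀ {S : Type} [CommRing S] (u : Sˣ), ev u (Polynomial.toLaurent f) = Polynomial.aeval (u : S) f := by
    intro S _ u
    have : (ev u).comp (Polynomial.toLaurentAlg (R := ℤ)) = Polynomial.aeval (u : S) := by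
      apply Polynomial.algHom_ext
      rw [AlgHom.comp_apply, Polynomial.toLaurentAlg_apply, Polynomial.toLaurent_X, ev_T, zpow_one,
        Polynomial.aeval_X]
    exact DFunLike.congr_fun this f
  have hroot : ∀ z : ℂ, z ≠ 0 → Polynomial.aeval z f ≠ 0 := by
    intro z hz h
    have h2 := hev (Units.mk0 z hz)
    rw [hf, map_mul, ev_T] at h2
    have h3 : Polynomial.aeval ((Units.mk0 z hz : ℂˣ) : ℂ) f = 0 := h
    rw [h3] at h2
    rcases mul_eq_zero.mp h2 with h4 | h4
    · exact h0 _ h4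
    · exact (Units.ne_zero _) h4
  have hone : Polynomial.eval 1 f = 1 := by
    have h2 := hev (1 : ℤˣ)
    rw [hf, map_mul, ev_T, h1, one_zpow] at h2
    simpa using h2.symm
  have hf0 : f ≠ 0 := by
    rintro rfl
    simp at hone
  obtain ⟨m, c, hm⟩ : ∃ (m : ℕ) (c : ℂ), f.map (Int.castRingHom ℂ) = Polynomial.C c * Polynomial.X ^ m := by
    have hs := IsAlgClosed.splits (f.map (Int.castRingHom ℂ))
    have h3 := hs.eq_prod_roots
    have h4 : ∀ r ∈ (f.map (Int.castRingHom ℂ)).roots, r = 0 := by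
      intro r hr
      by_contra hne
      apply hroot r hne
      have := Polynomial.isRoot_of_mem_roots hr
      rw [Polynomial.IsRoot.def, Polynomial.eval_map] at this
      rw [Polynomial.aeval_def]
      exact this
    rw [Multiset.eq_replicate_of_mem h4] at h3
    rw [Multiset.map_replicate, Multiset.prod_replicate, Polynomial.C_0, sub_zero] at h3
    exact ⟨_, _, h3⟩
  have hcoeff : ∀ i, i ≠ m → f.coeff i = 0 := by
    intro i hi
    have := congrArg (fun p => Polynomial.coeff p i) hm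
    simp only [Polynomial.coeff_map, Polynomial.coeff_C_mul_X_pow, if_neg hi] at this
    simpa using this
  have hfm : f = Polynomial.X ^ m := by
    have h5 : f = Polynomial.monomial m (f.coeff m) := by
      ext i
      rw [Polynomial.coeff_monomial]
      split_ifs with h
      · rw [h]
      · exact hcoeff i (Ne.symm h)
    have h6 : f.coeff m = 1 := by
      rw [h5] at hone
      simpa using hone
    rw [h5, h6, Polynomial.monomial_one_right_eq_X_pow]
  refine ⟨m - n, ?_⟩
  have h7 : k = Polynomial.toLaurent f * LaurentPolynomial.T (-n) := by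
    rw [hf, mul_assoc, ← LaurentPolynomial.T_add]
    simp
  rw [h7, hfm, Polynomial.toLaurent_X_pow, ← LaurentPolynomial.T_add, sub_eq_add_neg]

/-- the derivative is a group element -/
lemma Good.deriv {w : F2} (hw : Good w) : ∃ l : ℤ, ∀ (S : Type) [Ring S] (A B : Sˣ),
    (val w (⟨A, 0⟩ : Af S) ⟨B, 1⟩).d = ((val w A B ^ l * B ^ (-l) : Sˣ) : S) := by
  obtain ⟨l, hl⟩ := monomial_of (kk w) hw.no_root hw.ev_one
  refine ⟨l, fun S _ A B => ?_⟩
  have h := hw.e1 A B
  rw [hl, ev_T, ev_T] at h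
  rw [Units.val_mul, h, mul_assoc, ← Units.val_mul, ← zpow_add, add_neg_cancel, zpow_zero,
    Units.val_one, mul_one]

/-- the opposite word -/
def op (w : F2) : F2 := val w (FreeGroup.of 1) (FreeGroup.of 0)

lemma val_op {G : Type*} [Group G] (w : F2) (x y : G) : val (op w) x y = val w y x := by
  unfold op
  have := map_val (FreeGroup.lift ![x, y]) w (FreeGroup.of 1) (FreeGroup.of 0)
  simp only [FreeGroup.lift_apply_of] at this
  exact this

lemma Good.op {w : F2} (hw : Good w) : Good (op w) where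
  p G _ x := by rw [val_op]; exact hw.q G x
  q G _ x := by rw [val_op]; exact hw.p G x
  assoc G _ x y z := by
    rw [val_op, val_op, val_op, val_op]
    exact (hw.assoc G z y x).symm

/-- the group ring of the free group -/
abbrev ZF : Type := MonoidAlgebra ℤ F2

/-- group elements are units -/
noncomputable def un : F2 →* ZFˣ := (MonoidAlgebra.of ℤ F2).toHomUnits

lemma un_inj : Function.Injective un := by
  intro x y h
  have h1 : MonoidAlgebra.of ℤ F2 x = MonoidAlgebra.of ℤ F2 y := congrArg (fun u : ZFˣ => (u : ZF)) h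
  exact MonoidAlgebra.of_injective h1

lemma nonneg_of {j l : ℤ} (h : (2 : ℚ) ^ j + 2 ^ l = 3) : 0 ≤ j := by
  by_contra hj
  have h1 : (2 : ℚ) ^ j ≤ 2 ^ (-1 : ℤ) := zpow_le_zpow_right₀ (by norm_num) (by omega)
  have h2 : (0 : ℚ) < 2 ^ j := by positivity
  rcases le_or_gt l 1 with hl | hl
  · have h3 : (2 : ℚ) ^ l ≤ 2 ^ (1 : ℤ) := zpow_le_zpow_right₀ (by norm_num) hl
    norm_num at h1 h3
    linarith
  · have h3 : (2 : ℚ) ^ (2 : ℤ) ≤ 2 ^ l := zpow_le_zpow_right₀ (by norm_num) (by omega)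
    norm_num at h3
    linarith

lemma two_pow {j l : ℤ} (h : (2 : ℚ) ^ j + 2 ^ l = 3) : (j = 1 ∧ l = 0) ∨ (j = 0 ∧ l = 1) := by
  obtain ⟨a, rfl⟩ := Int.eq_ofNat_of_zero_le (nonneg_of h)
  obtain ⟨b, rfl⟩ := Int.eq_ofNat_of_zero_le (nonneg_of (by rw [add_comm]; exact h))
  have h1 : 2 ^ a + 2 ^ b = 3 := by
    have : ((2 ^ a + 2 ^ b : ℕ) : ℚ) = (3 : ℕ) := by
      push_cast
      simpa using h
    exact_mod_cast this
  have ha : a < 2 := by
    by_contra hc
    have h2 : 2 ^ 2 ≤ 2 ^ a := Nat.pow_le_pow_right (by norm_num) (by omega)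
    have h3 : 0 < 2 ^ b := by positivity
    norm_num at h2
    omega
  have hb : b < 2 := by
    by_contra hc
    have h2 : 2 ^ 2 ≤ 2 ^ b := Nat.pow_le_pow_right (by norm_num) (by omega)
    have h3 : 0 < 2 ^ a := by positivity
    norm_num at h2
    omega
  interval_cases a <;> interval_cases b <;> simp_all

theorem Good.main {w : F2} (hw : Good w) :
    w = FreeGroup.of 0 * FreeGroup.of 1 ∨ w = FreeGroup.of 1 * FreeGroup.of 0 := by
  obtain ⟨l, hl⟩ := hw.deriv
  obtain ⟨j, hj⟩ := hw.op.deriv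
  have fund : ∀ (S : Type) [Ring S] (A B : Sˣ), ((val w A B : Sˣ) : S) - 1 =
      ((val w A B ^ j * A ^ (-j) : Sˣ) : S) * (A - 1) + ((val w A B ^ l * B ^ (-l) : Sˣ) : S) * (B - 1) := by
    intro S _ A B
    have h1 := congrArg Af.d (map_val Af.prin w A B)
    have h2 := val_d w A B ((A : S) - 1) ((B : S) - 1)
    have h3 := hj S B A
    rw [val_op, val_op] at h3
    rw [h3, hl] at h2
    exact h1.trans h2
  have hjl : (2 : ℚ) ^ j + 2 ^ l = 3 := by
    have h := fund ℚ (Units.mk0 2 two_ne_zero) (Units.mk0 2 two_ne_zero)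
    rw [hw.comm_val] at h
    have e : ∀ (u : ℚˣ) (n : ℤ), (u * u) ^ n * u ^ (-n) = u ^ n := by
      intro u n
      rw [mul_zpow, mul_assoc, ← zpow_add, add_neg_cancel, zpow_zero, mul_one]
    rw [e, e] at h
    simp only [Units.val_mul, Units.val_zpow_eq_zpow_val, Units.val_mk0] at h
    linarith
  have hz := fund ZF (un (FreeGroup.of 0)) (un (FreeGroup.of 1))
  have hval : val w (un (FreeGroup.of 0)) (un (FreeGroup.of 1)) = un w := by
    rw [← map_val]
    congr 1
    have : (FreeGroup.lift ![FreeGroup.of 0, FreeGroup.of 1] : F2 →* F2) = MonoidHom.id _ := by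
      ext i
      fin_cases i <;> simp
    exact DFunLike.congr_fun this w
  rw [hval] at hz
  rcases two_pow hjl with ⟨rfl, rfl⟩ | ⟨rfl, rfl⟩
  · right
    apply un_inj
    have h4 : un w * (un (FreeGroup.of 0))⁻¹ = un (FreeGroup.of 1) := by
      apply Units.ext
      have c0 : (un w) ^ (0 : ℤ) * (un (FreeGroup.of 1)) ^ (-0 : ℤ) = 1 := by simp
      have c1 : (un w) ^ (1 : ℤ) * (un (FreeGroup.of 0)) ^ (-1 : ℤ) = un w * (un (FreeGroup.of 0))⁻¹ := by simp
      rw [c0, c1, Units.val_one, one_mul, mul_sub, mul_one, ← Units.val_mul,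
        inv_mul_cancel_right] at hz
      have h5 : ((un w * (un (FreeGroup.of 0))⁻¹ : ZFˣ) : ZF) =
        ((un w : ZFˣ) : ZF) - (((un w : ZFˣ) : ZF) - ((un w * (un (FreeGroup.of 0))⁻¹ : ZFˣ) : ZF)) := by abel
      rw [h5]
      have h6 : ((un w : ZFˣ) : ZF) - ((un w * (un (FreeGroup.of 0))⁻¹ : ZFˣ) : ZF) =
        ((un w : ZFˣ) : ZF) - 1 - (((un (FreeGroup.of 1) : ZFˣ) : ZF) - 1) := by
        rw [hz]; abel
      rw [h6]; abel
    rw [map_mul, ← h4, inv_mul_cancel_right]
  · left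
    apply un_inj
    have h4 : un w * (un (FreeGroup.of 1))⁻¹ = un (FreeGroup.of 0) := by
      apply Units.ext
      have c0 : (un w) ^ (0 : ℤ) * (un (FreeGroup.of 0)) ^ (-0 : ℤ) = 1 := by simp
      have c1 : (un w) ^ (1 : ℤ) * (un (FreeGroup.of 1)) ^ (-1 : ℤ) = un w * (un (FreeGroup.of 1))⁻¹ := by simp
      rw [c0, c1, Units.val_one, one_mul, mul_sub, mul_one, ← Units.val_mul,
        inv_mul_cancel_right] at hz
      have h5 : ((un w * (un (FreeGroup.of 1))⁻¹ : ZFˣ) : ZF) =
        ((un w : ZFˣ) : ZF) - (((un w : ZFˣ) : ZF) - ((un w * (un (FreeGroup.of 1))⁻¹ : ZFˣ) : ZF)) := by abel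
      rw [h5]
      have h6 : ((un w : ZFˣ) : ZF) - ((un w * (un (FreeGroup.of 1))⁻¹ : ZFˣ) : ZF) =
        ((un w : ZFˣ) : ZF) - 1 - (((un (FreeGroup.of 0) : ZFˣ) : ZF) - 1) := by
        rw [hz]; abel
      rw [h6]; abel
    rw [map_mul, ← h4, inv_mul_cancel_right]

/-! ### free nilpotent groups -/

/-- the free nilpotent group of rank `n` and class `k - 1` -/
abbrev FN (n k : ℕ) : Type :=
  FreeGroup (Fin n) ⧸ (⊤ : Subgroup (FreeGroup (Fin n))).lowerCentralSeries (k - 1)

/-- the operation `x * y = w(x, y)` makes the set `G` into a group -/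
def IsGroupOp (G : Type) [Group G] (w : F2) : Prop :=
  (∀ x y z : G, val w (val w x y) z = val w x (val w y z)) ∧
    ∃ e : G, (∀ x : G, val w e x = x ∧ val w x e = x) ∧
      ∀ x : G, ∃ y : G, val w y x = e ∧ val w x y = e

lemma good_of (w : F2) (h : ∀ n k : ℕ, 2 ≤ n → 1 ≤ k → IsGroupOp (FN n k) w) : Good w := by
  -- the exponent sums
  obtain ⟨-, e, he, -⟩ := h 2 2 le_rfl one_le_two
  let P : F2 →* Multiplicative ℤ := FreeGroup.lift ![Multiplicative.ofAdd 1, 1]
  let Q : F2 →* Multiplicative ℤ := FreeGroup.lift ![1, Multiplicative.ofAdd 1]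
  have hP : ∀ (G : Type) [Group G] (x : G), val w x 1 = x ^ (P w).toAdd := by
    intro G _ x
    have : (FreeGroup.lift ![x, 1] : F2 →* G) = (zpowersHom G x).comp P := by
      ext i
      fin_cases i <;> simp [P]
    exact DFunLike.congr_fun this w
  have hQ : ∀ (G : Type) [Group G] (x : G), val w 1 x = x ^ (Q w).toAdd := by
    intro G _ x
    have : (FreeGroup.lift ![1, x] : F2 →* G) = (zpowersHom G x).comp Q := by
      ext i
      fin_cases i <;> simp [Q]
    exact DFunLike.congr_fun this w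
  -- the exponent of the first generator
  let ψ : FN 2 2 →* Multiplicative ℤ := QuotientGroup.lift _
    (FreeGroup.lift ![Multiplicative.ofAdd (1 : ℤ), 1]) (by
      have : (⊤ : Subgroup (FreeGroup (Fin 2))).lowerCentralSeries (2 - 1) = commutator _ :=
        Subgroup.top_lowerCentralSeries_one
      rw [this]
      exact Abelianization.commutator_subset_ker _)
  have hψ : ψ (QuotientGroup.mk (FreeGroup.of 0)) = Multiplicative.ofAdd 1 := by
    change FreeGroup.lift ![Multiplicative.ofAdd (1 : ℤ), 1] (FreeGroup.of 0) = _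
    simp
  have hz : ∀ x : Multiplicative ℤ, val w x (ψ e) = x ^ (P w).toAdd * (ψ e) ^ (Q w).toAdd := by
    intro x; rw [val_comm, hP, hQ]
  have hz' : ∀ x : Multiplicative ℤ, val w (ψ e) x = (ψ e) ^ (P w).toAdd * x ^ (Q w).toAdd := by
    intro x; rw [val_comm, hP, hQ]
  have a1 := congrArg ψ (he 1).2
  have a2 := congrArg ψ (he 1).1
  have a3 := congrArg ψ (he (QuotientGroup.mk (FreeGroup.of 0))).2
  have a4 := congrArg ψ (he (QuotientGroup.mk (FreeGroup.of 0))).1
  rw [map_val, map_one, hz, one_zpow, one_mul] at a1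
  rw [map_val, map_one, hz', one_zpow, mul_one] at a2
  rw [map_val, hz, a1, mul_one, hψ] at a3
  rw [map_val, hz', a2, one_mul, hψ] at a4
  have hp1 : (P w).toAdd = 1 := by
    have := congrArg Multiplicative.toAdd a3
    simpa using this
  have hq1 : (Q w).toAdd = 1 := by
    have := congrArg Multiplicative.toAdd a4
    simpa using this
  refine ⟨fun G _ x => by rw [hP, hp1, zpow_one], fun G _ x => by rw [hQ, hq1, zpow_one], ?_⟩
  -- associativity in the free group of rank three
  have hF : val w (val w (FreeGroup.of (0 : Fin 3)) (FreeGroup.of 1)) (FreeGroup.of 2) =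
      val w (FreeGroup.of 0) (val w (FreeGroup.of 1) (FreeGroup.of 2)) := by
    rw [← inv_mul_eq_one]
    apply Pool.Agent.Helper189.FreeRep.lcs_bot
    intro n
    have h1 := (h 3 (n + 1) (by norm_num) (by omega)).1 (QuotientGroup.mk (FreeGroup.of 0))
      (QuotientGroup.mk (FreeGroup.of 1)) (QuotientGroup.mk (FreeGroup.of 2))
    have hm : ∀ x y : FreeGroup (Fin 3), val w (QuotientGroup.mk x : FN 3 (n + 1)) (QuotientGroup.mk y) =
        QuotientGroup.mk (val w x y) := fun x y =>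
      (map_val (QuotientGroup.mk' ((⊤ : Subgroup (FreeGroup (Fin 3))).lowerCentralSeries (n + 1 - 1)))
        w x y).symm
    rw [hm, hm, hm, hm, QuotientGroup.eq] at h1
    exact h1
  intro G _ x y z
  have := congrArg (FreeGroup.lift ![x, y, z]) hF
  simp only [map_val, FreeGroup.lift_apply_of] at this
  exact this

theorem main (w : F2) : (∀ n k : ℕ, 2 ≤ n → 1 ≤ k → IsGroupOp (FN n k) w) ↔
    w = FreeGroup.of 0 * FreeGroup.of 1 ∨ w = FreeGroup.of 1 * FreeGroup.of 0 := by
  constructor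
  · intro h
    exact (good_of w h).main
  · rintro (rfl | rfl) n k - -
    · refine ⟨fun x y z => ?_, 1, fun x => ⟨?_, ?_⟩, fun x => ⟨x⁻¹, ?_, ?_⟩⟩ <;>
        simp [val_mul, val_of0, val_of1, mul_assoc]
    · refine ⟨fun x y z => ?_, 1, fun x => ⟨?_, ?_⟩, fun x => ⟨x⁻¹, ?_, ?_⟩⟩ <;>
        simp [val_mul, val_of0, val_of1, mul_assoc]

end Pool.Agent.N86.WordOp
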